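import Pool.Agent.H48.M5.Stmts
import Pool.Agent.H73.KAF.RST

/-!
# L1, `n` unknown numbers: the difference of the forms of two lines in one cell
-/

set_option autoImplicit false

namespace Pool.M5.N2

open Finset Real
open Pool.Agent.H49.Ent Pool.Agent.H32.Dense Pool.STK Pool.KAF

/-! ### Coefficients of interpolation polynomials -/

/-- The coefficients of a product of linear factors. -/
theorem coeff_prod_le {ι : Type} (S : Finset ι) (c x : ι → ℝ) {B : ℝ} (hB : 0 ≤ B)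
    (hc : ∀ j ∈ S, |c j| ≤ B) (hx : ∀ j ∈ S, |x j| ≤ 1) (a : ℕ) :
    |(∏ j ∈ S, (Polynomial.C (c j) * (Polynomial.X - Polynomial.C (x j)))).coeff a| ≤
      (2 * B) ^ S.card := by
  classical
  induction S using Finset.induction_on generalizing a with
  | empty =>
    rw [Finset.prod_empty, Polynomial.coeff_one, Finset.card_empty, pow_zero]
    split_ifs <;> norm_num
  | insert j S hj ih =>
    have ih' := ih (fun i hi => hc i (Finset.mem_insert_of_mem hi))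
      (fun i hi => hx i (Finset.mem_insert_of_mem hi))
    rw [Finset.prod_insert hj, Finset.card_insert_of_notMem hj, pow_succ]
    set p := ∏ j ∈ S, (Polynomial.C (c j) * (Polynomial.X - Polynomial.C (x j))) with hp
    have e1 : (Polynomial.C (c j) * (Polynomial.X - Polynomial.C (x j)) * p).coeff a =
        c j * ((Polynomial.X * p).coeff a - x j * p.coeff a) := by
      rw [mul_assoc, Polynomial.coeff_C_mul, sub_mul, Polynomial.coeff_sub,
        Polynomial.coeff_C_mul]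
    rw [e1, abs_mul]
    have h1 : |(Polynomial.X * p).coeff a| ≤ (2 * B) ^ S.card := by
      cases a with
      | zero =>
        rw [Polynomial.coeff_X_mul_zero, abs_zero]
        positivity
      | succ a =>
        rw [Polynomial.coeff_X_mul]
        exact ih' a
    have h2 : |x j * p.coeff a| ≤ (2 * B) ^ S.card := by
      rw [abs_mul]
      calc |x j| * |p.coeff a| ≤ 1 * (2 * B) ^ S.card :=
            mul_le_mul (hx j (Finset.mem_insert_self _ _)) (ih' a) (abs_nonneg _) zero_le_one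
        _ = _ := one_mul _
    have h3 : |(Polynomial.X * p).coeff a - x j * p.coeff a| ≤ 2 * (2 * B) ^ S.card := by
      refine (abs_sub _ _).trans ?_
      linarith
    calc |c j| * |(Polynomial.X * p).coeff a - x j * p.coeff a| ≤ B * (2 * (2 * B) ^ S.card) :=
          mul_le_mul (hc j (Finset.mem_insert_self _ _)) h3 (abs_nonneg _) hB
      _ = _ := by ring

/-- The coefficients of the interpolation polynomial at separated nodes. -/
theorem lag_le {n : ℕ} {θ f : Fin (n + 1) → ℝ} {k₀ : ℕ} {F : ℝ}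
    (hθ : ∀ j, |θ j| ≤ 1) (hs : ∀ j j', j ≠ j' → (2 : ℝ) ^ (-(k₀ : ℤ)) ≤ |θ j - θ j'|)
    (hf : ∀ j, |f j| ≤ F) (a : ℕ) :
    |lag θ f a| ≤ ((n + 1) * 2 ^ ((k₀ + 1) * n)) * F := by
  unfold lag
  rw [Lagrange.interpolate_apply, Polynomial.finsetSum_coeff]
  refine (Finset.abs_sum_le_sum_abs _ _).trans ?_
  have h1 : ∀ j ∈ (univ : Finset (Fin (n + 1))),
      |(Polynomial.C (f j) * Lagrange.basis univ θ j).coeff a| ≤
        F * 2 ^ ((k₀ + 1) * n) := by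
    intro j _
    rw [Polynomial.coeff_C_mul, abs_mul]
    refine mul_le_mul (hf j) ?_ (abs_nonneg _) ((abs_nonneg _).trans (hf j))
    have h2 := coeff_prod_le (univ.erase j) (fun j' => (θ j - θ j')⁻¹) θ
      (B := (2 : ℝ) ^ k₀) (by positivity) (fun j' hj' => ?_) (fun j' _ => hθ j') a
    · have h3 : (univ.erase j : Finset (Fin (n + 1))).card = n := by
        rw [Finset.card_erase_of_mem (mem_univ j), Finset.card_univ, Fintype.card_fin]
        rfl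
      rw [h3] at h2
      have h4 : (2 * (2 : ℝ) ^ k₀) ^ n = 2 ^ ((k₀ + 1) * n) := by
        rw [← pow_succ', ← pow_mul]
      rw [h4] at h2
      exact h2
    · rw [abs_inv]
      have h5 := hs j j' (Finset.ne_of_mem_erase hj').symm
      rw [zpow_neg, zpow_natCast] at h5
      exact inv_le_of_inv_le₀ (by positivity) h5
  refine (Finset.sum_le_sum h1).trans (le_of_eq ?_)
  rw [Finset.sum_const, Finset.card_univ, Fintype.card_fin, nsmul_eq_mul]
  push_cast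
  ring

/-! ### Functions -/

section

variable {k n : ℕ} {I : Type} [Fintype I] (b : Bas k I) (d : LDat k n I)

theorem pol_sub (a a' : I → ℝ) (x : Fin k → ℝ) :
    pol b (fun i => a i - a' i) x = pol b a x - pol b a' x := by
  unfold pol
  rw [← Finset.sum_sub_distrib]
  exact Finset.sum_congr rfl fun i _ => by ring

theorem pol_smul (c : ℝ) (a : I → ℝ) (x : Fin k → ℝ) :
    pol b (fun i => c * a i) x = c * pol b a x := by
  unfold pol
  rw [Finset.mul_sum]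
  exact Finset.sum_congr rfl fun i _ => by ring

theorem pol_sum {ι : Type} (S : Finset ι) (a : ι → I → ℝ) (x : Fin k → ℝ) :
    pol b (fun i => ∑ j ∈ S, a j i) x = ∑ j ∈ S, pol b (a j) x := by
  unfold pol
  rw [Finset.sum_comm]
  exact Finset.sum_congr rfl fun i _ => Finset.sum_mul _ _ _

theorem grd_sub (a a' : I → ℝ) (x : Fin k → ℝ) (j : Fin k) :
    grd b (fun i => a i - a' i) x j = grd b a x j - grd b a' x j := by
  unfold grd
  rw [← Finset.sum_sub_distrib]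
  exact Finset.sum_congr rfl fun i _ => by ring

theorem grd_smul (c : ℝ) (a : I → ℝ) (x : Fin k → ℝ) (j : Fin k) :
    grd b (fun i => c * a i) x j = c * grd b a x j := by
  unfold grd
  rw [Finset.mul_sum]
  exact Finset.sum_congr rfl fun i _ => by ring

theorem grd_sum {ι : Type} (S : Finset ι) (a : ι → I → ℝ) (x : Fin k → ℝ) (j : Fin k) :
    grd b (fun i => ∑ l ∈ S, a l i) x j = ∑ l ∈ S, grd b (a l) x j := by
  unfold grd
  rw [Finset.sum_comm]
  exact Finset.sum_congr rfl fun i _ => Finset.sum_mul _ _ _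

variable {b d}

omit [Fintype I] in
/-- The differences of the powers of the times. -/
theorem dt_le (hth : ∀ t, 0 ≤ d.th t ∧ d.th t < 1) (a : Fin n) (w : d.Om × d.Om) :
    |d.dt a w| ≤ (a.val + 1) * |d.ta w| := by
  unfold LDat.dt LDat.ta
  have h1 := hth (d.T w.1)
  have h2 := hth (d.T w.2)
  have h3 := abs_pow_sub_pow_le (d.th (d.T w.2)) (d.th (d.T w.1)) (a.val + 1)
  have h4 : max |d.th (d.T w.2)| |d.th (d.T w.1)| ^ (a.val + 1 - 1) ≤ 1 := by
    refine pow_le_one₀ (le_max_of_le_left (abs_nonneg _)) (max_le ?_ ?_)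
    · rw [abs_of_nonneg h2.1]; exact h2.2.le
    · rw [abs_of_nonneg h1.1]; exact h1.2.le
  refine h3.trans ?_
  push_cast
  have h5 : 0 ≤ |d.th (d.T w.2) - d.th (d.T w.1)| * ((a.val : ℝ) + 1) := by positivity
  calc |d.th (d.T w.2) - d.th (d.T w.1)| * ((a.val : ℝ) + 1) *
        max |d.th (d.T w.2)| |d.th (d.T w.1)| ^ (a.val + 1 - 1)
      ≤ |d.th (d.T w.2) - d.th (d.T w.1)| * ((a.val : ℝ) + 1) * 1 :=
        mul_le_mul_of_nonneg_left h4 h5
    _ = _ := by ring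

omit [Fintype I] in
theorem dt_le_one (hth : ∀ t, 0 ≤ d.th t ∧ d.th t < 1) (a : Fin n) (w : d.Om × d.Om) :
    |d.dt a w| ≤ 1 := by
  unfold LDat.dt
  have h1 := hth (d.T w.1)
  have h2 := hth (d.T w.2)
  have k1 : 0 ≤ d.th (d.T w.2) ^ (a.val + 1) := pow_nonneg h2.1 _
  have k2 : 0 ≤ d.th (d.T w.1) ^ (a.val + 1) := pow_nonneg h1.1 _
  have k3 : d.th (d.T w.2) ^ (a.val + 1) ≤ 1 := pow_le_one₀ h2.1 h2.2.le
  have k4 : d.th (d.T w.1) ^ (a.val + 1) ≤ 1 := pow_le_one₀ h1.1 h1.2.le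
  rw [abs_le]
  constructor <;> linarith

omit [Fintype I] in
theorem ta_le_one (hth : ∀ t, 0 ≤ d.th t ∧ d.th t < 1) (w : d.Om × d.Om) : |d.ta w| ≤ 1 := by
  unfold LDat.ta
  have h1 := hth (d.T w.1)
  have h2 := hth (d.T w.2)
  rw [abs_le]
  constructor <;> linarith

omit [Fintype I] in
/-- The sum over the unknown numbers. -/
theorem sum_dt_le (hth : ∀ t, 0 ≤ d.th t ∧ d.th t < 1) (w : d.Om × d.Om) (x : Fin n → ℝ)
    {B : ℝ} (hB : ∀ a, |x a| ≤ B) :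
    |∑ a, d.dt a w * x a| ≤ (n : ℝ) ^ 2 * |d.ta w| * B := by
  rcases Nat.eq_zero_or_pos n with h0 | h0
  · subst h0
    simp
  refine (Finset.abs_sum_le_sum_abs _ _).trans ?_
  have h1 : ∀ a ∈ (univ : Finset (Fin n)), |d.dt a w * x a| ≤ (n * |d.ta w|) * B := by
    intro a _
    rw [abs_mul]
    refine mul_le_mul ((dt_le hth a w).trans (mul_le_mul_of_nonneg_right ?_ (abs_nonneg _)))
      (hB a) (abs_nonneg _) (by positivity)
    have : a.val + 1 ≤ n := a.isLt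
    exact_mod_cast this
  refine (Finset.sum_le_sum h1).trans (le_of_eq ?_)
  rw [Finset.sum_const, Finset.card_univ, Fintype.card_fin, nsmul_eq_mul]
  ring

/-- The constant in the bound of the coefficients relative to a reference. -/
def Cr (n k₀ : ℕ) : ℕ := 2 + n * ((n + 1) * 2 ^ ((k₀ + 1) * n))

theorem as_le {A : ℕ} {c : ℝ} (hOK : d.OK b A c) {k₀ : ℕ} {v : Fin (n + 1) → d.Om}
    (hv : d.sep k₀ v) (a : Fin n) (i : I) :
    |d.As v a i| ≤ ((n + 1) * 2 ^ ((k₀ + 1) * n)) * (2 : ℝ) ^ c := by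
  unfold LDat.As
  refine lag_le (fun j => ?_) hv (fun j => hOK.hco _ i) _
  rw [abs_of_nonneg (hOK.hth _).1]
  exact (hOK.hth _).2.le

theorem rs_le {A : ℕ} {c : ℝ} (hOK : d.OK b A c) {k₀ : ℕ}
    {u : (Fin (n + 1) → d.Om) × (d.Om × d.Om)} (hu : d.sep k₀ u.1) (i : I) :
    |d.rs u i| ≤ Cr n k₀ * (2 : ℝ) ^ c := by
  unfold LDat.rs
  have h1 : |d.sg u.2 i| ≤ 2 * (2 : ℝ) ^ c := by
    unfold LDat.sg
    have k1 := hOK.hco (d.T u.2.2) i
    have k2 := hOK.hco (d.T u.2.1) i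
    have k3 := abs_sub (d.co (d.T u.2.2) i) (d.co (d.T u.2.1) i)
    linarith
  have h2 : |∑ a, d.dt a u.2 * d.As u.1 a i| ≤
      n * (((n + 1) * 2 ^ ((k₀ + 1) * n)) * (2 : ℝ) ^ c) := by
    refine (Finset.abs_sum_le_sum_abs _ _).trans ?_
    have h3 : ∀ a ∈ (univ : Finset (Fin n)), |d.dt a u.2 * d.As u.1 a i| ≤
        ((n + 1) * 2 ^ ((k₀ + 1) * n)) * (2 : ℝ) ^ c := by
      intro a _
      rw [abs_mul]
      calc |d.dt a u.2| * |d.As u.1 a i| ≤ 1 * (((n + 1) * 2 ^ ((k₀ + 1) * n)) * (2 : ℝ) ^ c) :=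
            mul_le_mul (dt_le_one hOK.hth a _) (as_le hOK hu a i) (abs_nonneg _) zero_le_one
        _ = _ := one_mul _
    refine (Finset.sum_le_sum h3).trans (le_of_eq ?_)
    rw [Finset.sum_const, Finset.card_univ, Fintype.card_fin, nsmul_eq_mul]
  refine (abs_sub _ _).trans ((add_le_add h1 h2).trans (le_of_eq ?_))
  unfold Cr
  push_cast
  ring

/-- The difference of the forms of two lines whose references have the same times. -/
theorem zr_id (u : (Fin (n + 1) → d.Om) × (d.Om × d.Om)) (v : Fin (n + 1) → d.Om)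
    (h : ∀ j, d.T (v j) = d.T (u.1 j)) :
    d.Z b (d.T u.2.1) (d.T u.2.2) (d.y (d.L (u.1 0)), d.c (d.L (u.1 0))) -
      d.Z b (d.T u.2.1) (d.T u.2.2) (d.y (d.L (v 0)), d.c (d.L (v 0))) =
    ∑ a, d.dt a u.2 * (d.cs b u.1 a - d.cs b v a) -
      (pol b (d.rs u) (d.yR (d.L (u.1 0))) - pol b (d.rs u) (d.yR (d.L (v 0)))) := by
  have e1 : ∀ (l : d.Lam), d.Z b (d.T u.2.1) (d.T u.2.2) (d.y l, d.c l) =
      ∑ a, d.dt a u.2 * d.cR l a - (d.s (d.T u.2.2) - d.s (d.T u.2.1)) -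
        pol b (d.sg u.2) (d.yR l) := by
    intro l
    have e2 : pol b (d.sg u.2) (d.yR l) =
        pol b (d.co (d.T u.2.2)) (d.yR l) - pol b (d.co (d.T u.2.1)) (d.yR l) :=
      pol_sub b (d.co (d.T u.2.2)) (d.co (d.T u.2.1)) (d.yR l)
    rw [e2]
    rfl
  have e3 : ∀ x, pol b (d.rs u) x =
      pol b (d.sg u.2) x - ∑ a, d.dt a u.2 * pol b (d.As u.1 a) x := by
    intro x
    have h1 := pol_sub b (d.sg u.2) (fun i => ∑ a, d.dt a u.2 * d.As u.1 a i) x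
    rw [pol_sum b univ (fun a i => d.dt a u.2 * d.As u.1 a i) x] at h1
    simp only [pol_smul] at h1
    exact h1
  have e4 : ∀ a, d.As v a = d.As u.1 a := by
    intro a
    funext i
    unfold LDat.As
    simp only [h]
  rw [e1, e1, e3, e3]
  unfold LDat.cs
  simp only [e4]
  have e5 : ∑ a, d.dt a u.2 * (d.cR (d.L (u.1 0)) a - pol b (d.As u.1 a) (d.yR (d.L (u.1 0))) -
      (d.cR (d.L (v 0)) a - pol b (d.As u.1 a) (d.yR (d.L (v 0))))) =
      ∑ a, d.dt a u.2 * d.cR (d.L (u.1 0)) a - ∑ a, d.dt a u.2 * d.cR (d.L (v 0)) a -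
      (∑ a, d.dt a u.2 * pol b (d.As u.1 a) (d.yR (d.L (u.1 0))) -
        ∑ a, d.dt a u.2 * pol b (d.As u.1 a) (d.yR (d.L (v 0)))) := by
    simp only [← Finset.sum_sub_distrib]
    exact Finset.sum_congr rfl fun a _ => by ring
  rw [e5]
  ring

theorem floor_cell {r s : ℕ} (hrs : r ≤ s) {x x' : ℝ}
    (h : ⌊(2 : ℝ) ^ s * x⌋ = ⌊(2 : ℝ) ^ s * x'⌋) : ⌊(2 : ℝ) ^ r * x⌋ = ⌊(2 : ℝ) ^ r * x'⌋ := by
  have h1 : ∀ z : ℝ, ⌊(2 : ℝ) ^ r * z⌋ = ⌊(2 : ℝ) ^ s * z⌋ / ((2 : ℕ) ^ (s - r) : ℕ) := by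
    intro z
    rw [← Int.floor_div_natCast]
    congr 1
    rw [eq_div_iff (by positivity)]
    push_cast
    rw [mul_right_comm, ← pow_add, Nat.add_sub_cancel' hrs]
  rw [h1, h1, h]

theorem floor_near (r : ℕ) (x x' : ℝ) (h : ⌊(2 : ℝ) ^ r * x'⌋ = ⌊(2 : ℝ) ^ r * x⌋) :
    |x' - ⌊(2 : ℝ) ^ r * x⌋ / 2 ^ r| ≤ (2 : ℝ) ^ (-(r : ℤ)) := by
  have h0 : (0 : ℝ) < (2 : ℝ) ^ r := by positivity
  have h1 := Int.floor_le ((2 : ℝ) ^ r * x')
  have h2 := Int.lt_floor_add_one ((2 : ℝ) ^ r * x')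
  rw [h] at h1 h2
  have h3 : x' - ⌊(2 : ℝ) ^ r * x⌋ / 2 ^ r = ((2 : ℝ) ^ r * x' - ⌊(2 : ℝ) ^ r * x⌋) / 2 ^ r := by
    field_simp
  rw [h3, abs_div, abs_of_pos h0, zpow_neg, zpow_natCast, div_le_iff₀ h0,
    inv_mul_cancel₀ h0.ne', abs_le]
  constructor <;> linarith

theorem floor_unit (r : ℕ) (x : ℝ) (h : |x| ≤ 1) : |(⌊(2 : ℝ) ^ r * x⌋ : ℝ) / 2 ^ r| ≤ 1 := by
  have h0 : (0 : ℝ) < (2 : ℝ) ^ r := by positivity
  rw [abs_le] at h
  rw [abs_div, abs_of_pos h0, div_le_one h0, abs_le]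
  constructor
  · have h1 : (-(2 : ℤ) ^ r) ≤ ⌊(2 : ℝ) ^ r * x⌋ := by
      rw [Int.le_floor]
      push_cast
      nlinarith [h.1]
    have h2 : ((-(2 : ℤ) ^ r : ℤ) : ℝ) ≤ (⌊(2 : ℝ) ^ r * x⌋ : ℝ) := by exact_mod_cast h1
    push_cast at h2
    exact h2
  · have h1 := Int.floor_le ((2 : ℝ) ^ r * x)
    nlinarith [h.2]

/-! ### Cells -/

theorem GA_T {m : (Fin (n + 1) → d.Om) → ℤ} {s : ℕ} {v v' : Fin (n + 1) → d.Om}
    (h : d.GA b m s v = d.GA b m s v') (j : Fin (n + 1)) : d.T (v j) = d.T (v' j) :=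
  congrFun (congrArg (fun z => z.1.1) h) j

theorem GA_m {m : (Fin (n + 1) → d.Om) → ℤ} {s : ℕ} {v v' : Fin (n + 1) → d.Om}
    (h : d.GA b m s v = d.GA b m s v') : m v = m v' :=
  congrArg (fun z => z.1.2) h

theorem GA_fl {m : (Fin (n + 1) → d.Om) → ℤ} {s : ℕ} {v v' : Fin (n + 1) → d.Om}
    (h : d.GA b m s v = d.GA b m s v') (j : Fin k) :
    ⌊(2 : ℝ) ^ s * d.yR (d.L (v 0)) j⌋ = ⌊(2 : ℝ) ^ s * d.yR (d.L (v' 0)) j⌋ :=
  congrFun (congrArg (fun z => z.2.1) h) j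

/-- The positions of two lines in one cell. -/
theorem GA_dy {m : (Fin (n + 1) → d.Om) → ℤ} {s : ℕ} {v v' : Fin (n + 1) → d.Om}
    (h : d.GA b m s v = d.GA b m s v') (j : Fin k) :
    |d.yR (d.L (v' 0)) j - d.yR (d.L (v 0)) j| ≤ (2 : ℝ) ^ (-(s : ℤ)) := by
  have h1 := Int.abs_sub_lt_one_of_floor_eq_floor (GA_fl h j)
  rw [← mul_sub, abs_mul, abs_of_pos (by positivity : (0 : ℝ) < 2 ^ s), abs_sub_comm] at h1
  rw [zpow_neg, zpow_natCast, ← one_div, le_div_iff₀ (by positivity), mul_comm]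
  exact h1.le

/-- The unknown numbers of two lines in one cell. -/
theorem GA_dcs {m : (Fin (n + 1) → d.Om) → ℤ} {s : ℕ} {v v' : Fin (n + 1) → d.Om}
    (h : d.GA b m s v = d.GA b m s v') (a : Fin n) :
    |d.cs b v' a - d.cs b v a| ≤ (2 : ℝ) ^ (-((s : ℤ) + m v')) := by
  have g4 : ⌊(2 : ℝ) ^ ((s : ℤ) + m v) * d.cs b v a⌋ =
      ⌊(2 : ℝ) ^ ((s : ℤ) + m v') * d.cs b v' a⌋ :=
    congrFun (congrArg (fun z => z.2.2) h) a
  rw [GA_m h] at g4
  have h1 := Int.abs_sub_lt_one_of_floor_eq_floor g4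
  rw [← mul_sub, abs_mul, abs_of_pos (by positivity : (0 : ℝ) < 2 ^ ((s : ℤ) + m v')),
    abs_sub_comm] at h1
  rw [zpow_neg, ← one_div, le_div_iff₀ (by positivity), mul_comm]
  exact h1.le

/-- Taylor: the difference of the forms of two lines in one cell, up to a small error. -/
theorem zr_close {A : ℕ} {c : ℝ} (hOK : d.OK b A c) {ns h : ℕ} {m : (Fin (n + 1) → d.Om) → ℤ}
    (hS : Siz b d ns h m c) {k₀ : ℕ} (hn : Cr n k₀ ≤ ns)
    {s : ℕ} (hs : 8 * ns ≤ s) {u : (Fin (n + 1) → d.Om) × (d.Om × d.Om)}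
    {v : Fin (n + 1) → d.Om} (hu : d.sep k₀ u.1) (hG : d.GA b m s v = d.GA b m s u.1) :
    |d.Z b (d.T u.2.1) (d.T u.2.2) (d.y (d.L (u.1 0)), d.c (d.L (u.1 0))) -
      d.Z b (d.T u.2.1) (d.T u.2.2) (d.y (d.L (v 0)), d.c (d.L (v 0))) -
      (∑ a, d.dt a u.2 * (d.cs b u.1 a - d.cs b v a) -
        ∑ j, d.gr b (8 * ns) u j * (d.yR (d.L (u.1 0)) j - d.yR (d.L (v 0)) j))| ≤
      (2 : ℝ) ^ (-(6 * ns : ℤ) - 30) * ‖d.yR (d.L (u.1 0)) - d.yR (d.L (v 0))‖ := by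
  have g3 := GA_fl hG
  have g4 : ∀ j, ⌊(2 : ℝ) ^ (8 * ns) * d.yR (d.L (v 0)) j⌋ =
      ⌊(2 : ℝ) ^ (8 * ns) * d.yR (d.L (u.1 0)) j⌋ := fun j => floor_cell hs (g3 j)
  rw [zr_id u v (GA_T hG)]
  have e1 : ∀ A B C : ℝ, A - B - (A - C) = -(B - C) := fun A B C => by ring
  rw [e1, abs_neg]
  set xu := d.yR (d.L (u.1 0)) with hxu
  set xv := d.yR (d.L (v 0)) with hxv
  have e2 : pol b (d.rs u) xu - pol b (d.rs u) xv -
      ∑ j, d.gr b (8 * ns) u j * (xu j - xv j) =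
      ∑ i, d.rs u i * (b.g i xu - b.g i xv -
        ∑ j, b.D i (d.y₀ (8 * ns) (d.L (u.1 0))) j * (xu j - xv j)) := by
    unfold pol LDat.gr grd
    simp only [mul_sub, Finset.sum_sub_distrib, Finset.mul_sum, Finset.sum_mul]
    rw [Finset.sum_comm (s := (univ : Finset (Fin k)))]
    rw [Finset.sum_comm (s := (univ : Finset (Fin k)))
      (f := fun j i => d.rs u i * b.D i (d.y₀ (8 * ns) (d.L (u.1 0))) j * xv j)]
    congr 2 <;> (try exact Finset.sum_congr rfl fun i _ => Finset.sum_congr rfl fun j _ => by ring)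
  rw [e2]
  have hn1 : (2 : ℝ) ^ (-((8 * ns : ℕ) : ℤ)) = (2 : ℝ) ^ (-(8 * ns : ℤ)) := by norm_num
  have h3 : ∀ i, |d.rs u i * (b.g i xu - b.g i xv -
      ∑ j, b.D i (d.y₀ (8 * ns) (d.L (u.1 0))) j * (xu j - xv j))| ≤
      (Cr n k₀ * (2 : ℝ) ^ c) * (b.C * (2 : ℝ) ^ (-(8 * ns : ℤ)) * ‖xu - xv‖) := by
    intro i
    rw [abs_mul]
    refine mul_le_mul (rs_le hOK hu i) ?_ (abs_nonneg _) (by positivity)
    refine b.tay i xu xv (d.y₀ (8 * ns) (d.L (u.1 0))) (hOK.hy _) (hOK.hy _) ?_ _ ?_ ?_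
    · intro j
      exact floor_unit (8 * ns) _ (hOK.hy _ j)
    · intro j
      rw [← hn1]
      exact floor_near (8 * ns) _ _ rfl
    · intro j
      rw [← hn1]
      exact floor_near (8 * ns) _ _ (g4 j)
  have h4 := Finset.abs_sum_le_sum_abs (fun i => d.rs u i * (b.g i xu - b.g i xv -
      ∑ j, b.D i (d.y₀ (8 * ns) (d.L (u.1 0))) j * (xu j - xv j))) univ
  refine h4.trans ((Finset.sum_le_sum fun i _ => h3 i).trans ?_)
  rw [Finset.sum_const, Finset.card_univ, nsmul_eq_mul]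
  have hC : 1 ≤ b.C := b.hC
  have hcard : (0 : ℝ) ≤ (Fintype.card I : ℝ) := Nat.cast_nonneg _
  have hCr : (Cr n k₀ : ℝ) ≤ (2 : ℝ) ^ (ns : ℝ) := by
    rw [Real.rpow_natCast]
    have : Cr n k₀ ≤ 2 ^ ns := hn.trans Nat.lt_two_pow_self.le
    exact_mod_cast this
  have h5 : (Fintype.card I : ℝ) * ((Cr n k₀ * (2 : ℝ) ^ c) *
      (b.C * (2 : ℝ) ^ (-(8 * ns : ℤ)) * ‖xu - xv‖)) ≤
      ((2 : ℝ) ^ c * (b.C * (Fintype.card I + 1))) *
        ((2 : ℝ) ^ (ns : ℝ) * (2 : ℝ) ^ (-(8 * ns : ℤ))) * ‖xu - xv‖ := by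
    have k2 : (Fintype.card I : ℝ) * ((Cr n k₀ * (2 : ℝ) ^ c) *
        (b.C * (2 : ℝ) ^ (-(8 * ns : ℤ)) * ‖xu - xv‖)) =
        ((2 : ℝ) ^ c * (b.C * Fintype.card I)) *
        ((Cr n k₀ : ℝ) * (2 : ℝ) ^ (-(8 * ns : ℤ))) * ‖xu - xv‖ := by ring
    rw [k2]
    refine mul_le_mul_of_nonneg_right ?_ (norm_nonneg _)
    refine mul_le_mul ?_ (mul_le_mul_of_nonneg_right hCr (by positivity)) (by positivity)
      (by positivity)
    refine mul_le_mul_of_nonneg_left (mul_le_mul_of_nonneg_left ?_ (by linarith)) (by positivity)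
    linarith
  refine h5.trans ?_
  refine mul_le_mul_of_nonneg_right ?_ (norm_nonneg _)
  refine (mul_le_mul_of_nonneg_right hS.cn (by positivity)).trans ?_
  rw [← Real.rpow_intCast, ← Real.rpow_intCast, ← Real.rpow_add (by norm_num),
    ← Real.rpow_add (by norm_num)]
  refine Real.rpow_le_rpow_of_exponent_le (by norm_num) ?_
  push_cast
  have h6 : (64 : ℝ) ≤ ns := by
    have k1 := hS.hn
    have k2 := hS.h1
    exact_mod_cast (by omega : 64 ≤ ns)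
  linarith

/-- The gradient is not too large. -/
theorem gr_le {A : ℕ} {c : ℝ} (hOK : d.OK b A c) {ns h : ℕ} {m : (Fin (n + 1) → d.Om) → ℤ}
    (hS : Siz b d ns h m c) {k₀ : ℕ} (hn : Cr n k₀ ≤ ns)
    {u : (Fin (n + 1) → d.Om) × (d.Om × d.Om)} (hu : d.sep k₀ u.1) (r : ℕ) :
    ‖d.gr b r u‖ < (2 : ℝ) ^ ((2 : ℤ) * ns) := by
  have hC0 : 0 ≤ b.C := by linarith [b.hC]
  have hy : ∀ j, |d.y₀ r (d.L (u.1 0)) j| ≤ 1 := fun j => floor_unit r _ (hOK.hy _ j)
  have h1 : ∀ j, |d.gr b r u j| ≤ Fintype.card I * ((Cr n k₀ * (2 : ℝ) ^ c) * b.C) := by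
    intro j
    unfold LDat.gr grd
    refine (Finset.abs_sum_le_sum_abs _ _).trans ?_
    have : ∀ i ∈ (Finset.univ : Finset I), |d.rs u i * b.D i (d.y₀ r (d.L (u.1 0))) j| ≤
        (Cr n k₀ * (2 : ℝ) ^ c) * b.C := by
      intro i _
      rw [abs_mul]
      exact mul_le_mul (rs_le hOK hu i) (b.hD i _ hy j) (abs_nonneg _) (by positivity)
    refine (Finset.sum_le_sum this).trans (le_of_eq ?_)
    rw [Finset.sum_const, Finset.card_univ, nsmul_eq_mul]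
  have h2 : ‖d.gr b r u‖ ≤ Fintype.card I * ((Cr n k₀ * (2 : ℝ) ^ c) * b.C) :=
    (pi_norm_le_iff_of_nonneg (by positivity)).2 h1
  refine lt_of_le_of_lt h2 ?_
  have hCr : (Cr n k₀ : ℝ) ≤ (2 : ℝ) ^ (ns : ℝ) := by
    rw [Real.rpow_natCast]
    have : Cr n k₀ ≤ 2 ^ ns := hn.trans Nat.lt_two_pow_self.le
    exact_mod_cast this
  have h4 : (Fintype.card I : ℝ) * ((Cr n k₀ * (2 : ℝ) ^ c) * b.C) ≤
      (2 : ℝ) ^ c * (b.C * (Fintype.card I + 1)) * (2 : ℝ) ^ (ns : ℝ) := by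
    have e1 : (Fintype.card I : ℝ) * ((Cr n k₀ * (2 : ℝ) ^ c) * b.C) =
        ((2 : ℝ) ^ c * (b.C * Fintype.card I)) * Cr n k₀ := by ring
    rw [e1]
    refine mul_le_mul ?_ hCr (by positivity) (by positivity)
    refine mul_le_mul_of_nonneg_left (mul_le_mul_of_nonneg_left ?_ hC0) (by positivity)
    linarith
  refine lt_of_le_of_lt (h4.trans (mul_le_mul_of_nonneg_right hS.cn (by positivity))) ?_
  rw [← Real.rpow_add (by norm_num), ← Real.rpow_intCast]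
  refine Real.rpow_lt_rpow_of_exponent_lt (by norm_num) ?_
  push_cast
  have h6 : (64 : ℝ) ≤ ns := by
    have k1 := hS.hn
    have k2 := hS.h1
    exact_mod_cast (by omega : 64 ≤ ns)
  linarith

/-- The gradient is a function of the times and of the position to `r` digits. -/
theorem gr_congr {r : ℕ} {u u' : (Fin (n + 1) → d.Om) × (d.Om × d.Om)}
    (h : ∀ j, d.T (u.1 j) = d.T (u'.1 j)) (h1 : d.T u.2.1 = d.T u'.2.1)
    (h2 : d.T u.2.2 = d.T u'.2.2) (hy : d.y₀ r (d.L (u.1 0)) = d.y₀ r (d.L (u'.1 0))) :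
    d.gr b r u = d.gr b r u' := by
  have e1 : ∀ a, d.As u.1 a = d.As u'.1 a := by
    intro a
    funext i
    unfold LDat.As
    simp only [h]
  unfold LDat.gr LDat.rs LDat.sg LDat.dt
  simp only [e1, h1, h2, hy]

omit [Fintype I] in
theorem ta_congr {w w' : d.Om × d.Om} (h1 : d.T w.1 = d.T w'.1) (h2 : d.T w.2 = d.T w'.2) :
    d.ta w = d.ta w' := by
  unfold LDat.ta
  rw [h1, h2]

omit [Fintype I] in
theorem sep_congr {k₀ : ℕ} {v v' : Fin (n + 1) → d.Om} (h : ∀ j, d.T (v j) = d.T (v' j)) :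
    d.sep k₀ v ↔ d.sep k₀ v' := by
  unfold LDat.sep
  simp only [h]

end

end Pool.M5.N2
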