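import Pool.Agent.H21.M5.NlcA
import Pool.Agent.H21.M5.Zr2

/-!
# The row NLC of the pure part of M5
-/

set_option autoImplicit false

namespace Pool.M5.N2

open Finset Real
open Pool.Agent.H49.Ent Pool.Agent.H32.Dense Pool.STK Pool.KAF

variable {k n : ℕ} {I : Type} [Fintype I] {b : Bas k I} {d : LDat k n I}

/-! ### The law of the reference -/

omit [Fintype I] in
theorem Qr_nonneg (hP : ∀ ω, 0 ≤ d.P ω) (v : Fin (n + 1) → d.Om) : 0 ≤ d.Qr v := by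
  unfold LDat.Qr
  split_ifs
  · exact div_nonneg (Finset.prod_nonneg fun j _ => hP _) (pow_nonneg (law_nonneg hP _ _) _)
  · exact le_rfl

omit [Fintype I] in
/-- The law of the line of the reference. -/
theorem Qr_law (z : d.Lam) :
    law d.Qr (fun v => d.L (v 0)) z = law d.P d.L z := by
  classical
  have h1 : law d.Qr (fun v => d.L (v 0)) z =
      ∑ v : Fin (n + 1) → d.Om, (∏ j, (if d.L (v j) = z then d.P (v j) else 0)) /
        law d.P d.L z ^ n := by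
    unfold law
    refine Finset.sum_congr rfl fun v _ => ?_
    have h2 : (∏ j, (if d.L (v j) = z then d.P (v j) else 0)) =
        if ∀ j, d.L (v j) = z then ∏ j, d.P (v j) else 0 := by
      split_ifs with h
      · exact Finset.prod_congr rfl fun j _ => if_pos (h j)
      · obtain ⟨j, hj⟩ := not_forall.1 h
        exact Finset.prod_eq_zero (mem_univ j) (if_neg hj)
    rw [h2]
    unfold LDat.Qr law
    by_cases h0 : d.L (v 0) = z
    · rw [if_pos h0, h0]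
      split_ifs <;> simp
    · rw [if_neg h0, if_neg (fun h => h0 (h 0)), zero_div]
  rw [h1, ← Finset.sum_div]
  have h3 : (∑ v : Fin (n + 1) → d.Om, ∏ j, (if d.L (v j) = z then d.P (v j) else 0)) =
      law d.P d.L z ^ (n + 1) := by
    rw [← Fintype.sum_pow (fun ω => if d.L ω = z then d.P ω else 0) (n + 1)]
    congr 1
  rw [h3]
  by_cases h0 : law d.P d.L z = 0
  · rw [h0, pow_succ, mul_zero, zero_div]
  · rw [pow_succ, mul_div_cancel_left₀ _ (pow_ne_zero _ h0)]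

/-- The bad pairs. -/
def NB (b : Bas k I) (d : LDat k n I) (m : (Fin (n + 1) → d.Om) → ℤ) (ns a k₀ : ℕ) :
    Set ((Fin (n + 1) → d.Om) × (d.Om × d.Om)) :=
  {u | d.sep k₀ u.1 ∧ (2 : ℝ) ^ (-(4 * ns : ℤ)) ≤ |d.ta u.2| ∧
    (n + 1) ^ 2 * (2 : ℝ) ^ ((a : ℤ) + 4 - m u.1) * |d.ta u.2| <
      ‖d.gr b (8 * ns) u‖}

theorem NB_gr {m : (Fin (n + 1) → d.Om) → ℤ} {ns a h k₀ : ℕ} {c : ℝ} (hS : Siz b d ns h m c)
    {u : (Fin (n + 1) → d.Om) × (d.Om × d.Om)} (hu : u ∈ NB b d m ns a k₀) :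
    (2 : ℝ) ^ ((a : ℤ) + 4 - 6 * ns) < ‖d.gr b (8 * ns) u‖ := by
  refine lt_of_le_of_lt ?_ hu.2.2
  have h1 := mul_le_mul_of_nonneg_left hu.2.1
    (by positivity : (0 : ℝ) ≤ (n + 1) ^ 2 * (2 : ℝ) ^ ((a : ℤ) + 4 - m u.1))
  refine le_trans ?_ h1
  rw [mul_assoc, ← zpow_add₀ (by norm_num)]
  have h2 : (1 : ℝ) ≤ ((n : ℝ) + 1) ^ 2 := by
    have : (0 : ℝ) ≤ n := Nat.cast_nonneg _
    nlinarith
  have h3 : (2 : ℝ) ^ ((a : ℤ) + 4 - 6 * ns) ≤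
      (2 : ℝ) ^ ((a : ℤ) + 4 - m u.1 + -(4 * ns : ℤ)) := by
    refine zpow_le_zpow_right₀ (by norm_num) ?_
    have := hS.m2 u.1
    omega
  refine h3.trans ?_
  exact le_mul_of_one_le_left (by positivity) h2

/-- The form of a bad pair on a cell. -/
theorem nlc_pt {A : ℕ} {c : ℝ} (hOK : d.OK b A c) {ns h : ℕ} {m : (Fin (n + 1) → d.Om) → ℤ}
    (hS : Siz b d ns h m c) {k₀ : ℕ} (hn : Cr n k₀ ≤ ns) {s a k' k₁ : ℕ} (hs : 8 * ns ≤ s)
    (hk' : k + 2 ≤ k') (hk₁ : a + 1 ≤ k₁) {u : (Fin (n + 1) → d.Om) × (d.Om × d.Om)}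
    {v : Fin (n + 1) → d.Om} (hu : u ∈ NB b d m ns a k₀)
    (hG : d.GA b m s v = d.GA b m s u.1) :
    |d.Z b (d.T u.2.1) (d.T u.2.2) (d.y (d.L (u.1 0)), d.c (d.L (u.1 0))) -
        d.Z b (d.T u.2.1) (d.T u.2.2) (d.y (d.L (v 0)), d.c (d.L (v 0)))| ≤
      (2 : ℝ) ^ ((k' : ℤ) - (s + Pool.OC.sc ‖d.gr b (8 * ns) u‖)) ∧
    (|∑ j, d.gr b (8 * ns) u j * (d.yR (d.L (v 0)) j - d.yR (d.L (u.1 0)) j)| <
        ‖d.gr b (8 * ns) u‖ * (2 : ℝ) ^ (-((s : ℤ) + a)) ∨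
      (2 : ℝ) ^ (-((s : ℤ) + Pool.OC.sc ‖d.gr b (8 * ns) u‖ + k₁)) ≤
        |d.Z b (d.T u.2.1) (d.T u.2.2) (d.y (d.L (u.1 0)), d.c (d.L (u.1 0))) -
          d.Z b (d.T u.2.1) (d.T u.2.2) (d.y (d.L (v 0)), d.c (d.L (v 0)))|) := by
  have hgr := NB_gr hS hu
  have hg0 : 0 < |‖d.gr b (8 * ns) u‖| := by
    rw [abs_norm]
    exact lt_trans (by positivity) hgr
  obtain ⟨hq, hq'⟩ := sc_spec hg0
  rw [abs_norm] at hq hq'
  have hz := zr_close hOK hS hn hs hu.1 hG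
  have hdy : ∀ j, |d.yR (d.L (u.1 0)) j - d.yR (d.L (v 0)) j| ≤ (2 : ℝ) ^ (-(s : ℤ)) :=
    GA_dy hG
  have hdyn : ‖d.yR (d.L (u.1 0)) - d.yR (d.L (v 0))‖ ≤ (2 : ℝ) ^ (-(s : ℤ)) :=
    (pi_norm_le_iff_of_nonneg (by positivity)).2 hdy
  have hdb := sum_dt_le hOK.hth u.2 (fun a => d.cs b u.1 a - d.cs b v a) (GA_dcs hG)
  have h1 := form_pt (k' := k') (k₁ := k₁) (s := s) (a := a)
    (g := d.gr b (8 * ns) u) (dy := fun j => d.yR (d.L (u.1 0)) j - d.yR (d.L (v 0)) j)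
    (D := d.Z b (d.T u.2.1) (d.T u.2.2) (d.y (d.L (u.1 0)), d.c (d.L (u.1 0))) -
        d.Z b (d.T u.2.1) (d.T u.2.2) (d.y (d.L (v 0)), d.c (d.L (v 0))))
    (U := ∑ a, d.dt a u.2 * (d.cs b u.1 a - d.cs b v a))
    (E := d.Z b (d.T u.2.1) (d.T u.2.2) (d.y (d.L (u.1 0)), d.c (d.L (u.1 0))) -
        d.Z b (d.T u.2.1) (d.T u.2.2) (d.y (d.L (v 0)), d.c (d.L (v 0))) -
      (∑ a, d.dt a u.2 * (d.cs b u.1 a - d.cs b v a) -
        ∑ j, d.gr b (8 * ns) u j * (d.yR (d.L (u.1 0)) j - d.yR (d.L (v 0)) j)))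
    hq hq' (by ring) ?_ ?_ hdy hk' hk₁
  · refine ⟨h1.1, ?_⟩
    rcases h1.2 with h2 | h2
    · left
      have e1 : ∑ j, d.gr b (8 * ns) u j * (d.yR (d.L (v 0)) j - d.yR (d.L (u.1 0)) j) =
          -∑ j, d.gr b (8 * ns) u j * (d.yR (d.L (u.1 0)) j - d.yR (d.L (v 0)) j) := by
        rw [← Finset.sum_neg_distrib]
        exact Finset.sum_congr rfl fun j _ => by ring
      rw [e1, abs_neg]
      exact h2
    · exact Or.inr h2
  · -- the unknown numbers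
    refine hdb.trans ?_
    have e2 : (n : ℝ) ^ 2 * |d.ta u.2| * (2 : ℝ) ^ (-((s : ℤ) + m u.1)) ≤
        ((n + 1) ^ 2 * (2 : ℝ) ^ ((a : ℤ) + 4 - m u.1) * |d.ta u.2|) *
          (2 : ℝ) ^ (-((s : ℤ) + a + 4)) := by
      have e3 : (2 : ℝ) ^ (-((s : ℤ) + m u.1)) =
          (2 : ℝ) ^ ((a : ℤ) + 4 - m u.1) * (2 : ℝ) ^ (-((s : ℤ) + a + 4)) := by
        rw [← zpow_add₀ (by norm_num)]; congr 1; ring
      rw [e3]
      have e4 : (n : ℝ) ^ 2 ≤ ((n : ℝ) + 1) ^ 2 := by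
        have : (0 : ℝ) ≤ n := Nat.cast_nonneg _
        nlinarith
      have e5 : 0 ≤ |d.ta u.2| * ((2 : ℝ) ^ ((a : ℤ) + 4 - m u.1) *
          (2 : ℝ) ^ (-((s : ℤ) + a + 4))) := by positivity
      have e6 := mul_le_mul_of_nonneg_right e4 e5
      linarith
    refine e2.trans (mul_le_mul hu.2.2.le ?_ (by positivity) (norm_nonneg _))
    exact zpow_le_zpow_right₀ (by norm_num) (by omega)
  · -- the remainder
    refine hz.trans ?_
    have e1 : (2 : ℝ) ^ (-(6 * ns : ℤ) - 30) * ‖d.yR (d.L (u.1 0)) - d.yR (d.L (v 0))‖ ≤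
        (2 : ℝ) ^ (-(6 * ns : ℤ) - 30) * (2 : ℝ) ^ (-(s : ℤ)) :=
      mul_le_mul_of_nonneg_left hdyn (by positivity)
    refine e1.trans ?_
    have e2 : (2 : ℝ) ^ (-(6 * ns : ℤ) - 30) * (2 : ℝ) ^ (-(s : ℤ)) ≤
        (2 : ℝ) ^ ((a : ℤ) + 4 - 6 * ns) * (2 : ℝ) ^ (-((s : ℤ) + a + 3)) := by
      rw [← zpow_add₀ (by norm_num), ← zpow_add₀ (by norm_num)]
      exact zpow_le_zpow_right₀ (by norm_num) (by omega)
    exact e2.trans (mul_le_mul_of_nonneg_right hgr.le (by positivity))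

end Pool.M5.N2

namespace Pool.M5

open Finset Real
open Pool.Agent.H49.Ent Pool.Agent.H32.Dense Pool.STK Pool.KAF Pool.M5.N2

/-- **NLC.** No pairs far from the reference. -/
theorem nlc_thm : NLCStmt := by
  classical
  intro k n k₀
  refine ⟨Cr n k₀, ?_⟩
  intro I _ b d J m A ns h k' k₁ a e u π₁ ε₄ c hOK hS hn han hu hk' hk₁ hRow hJ hSPR i hi
  have hns : 64 ≤ ns := by
    have h1 := hS.h1
    have h2 := hS.hn
    omega
  have hX : (0 : ℝ) < d.X := by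
    have h3 := hS.nX
    have : 0 < d.X := by omega
    exact_mod_cast this
  have hP := hOK.law.nonneg
  have hQ00 : ∀ v, 0 ≤ d.Qr v := fun v => Qr_nonneg hP v
  have hQi0 : ∀ w, 0 ≤ d.Qp i w := fun w => dbl_nonneg hP w
  have hQ0 : ∀ w, 0 ≤ d.Q4 i w := fun w => glue_nonneg hQ00 hQi0 w
  -- the law of the line
  have hl2 : ∀ z, law (d.Qp i) (fun w => d.L w.1) z = law d.P d.L z := fun z =>
    (dbl_fst hP : Marg (d.Qp i) d.P (fun w => w.1)).law d.L z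
  have hl : ∀ z, law d.Qr (fun v => d.L (v 0)) z = law (d.Qp i) (fun w => d.L w.1) z :=
    fun z => (Qr_law z).trans (hl2 z).symm
  have hm1 : Marg (d.Q4 i) d.Qr (fun u => u.1) := marg_fst hQ00 hl
  have hm2 : Marg (d.Q4 i) (d.Qp i) (fun u => u.2) := marg_snd hQi0 hl
  have hm3 : Marg (d.Q4 i) d.P (fun u => u.2.1) := hm2.comp (dbl_fst hP)
  have hRi := hRow i (by omega) (fun u => Pool.OC.sc ‖d.gr b (8 * ns) u‖)
    (NB b d m ns a k₀) ?_ ?_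
  rotate_left
  · intro u u' _ _ h1 h3 h4 h5 h6
    have e2 : d.ta u.2 = d.ta u'.2 := ta_congr h3 h4
    have e3 : d.gr b (8 * ns) u = d.gr b (8 * ns) u' := gr_congr h1 h3 h4 h6
    refine ⟨by simp only [e3], ?_⟩
    unfold NB
    simp only [Set.mem_ofPred_eq, sep_congr h1, e2, e3, h5]
  · intro u v s _ _ hu hs hG
    exact (nlc_pt hOK hS hn hs (by omega) (by omega : a + 1 ≤ k₁) hu hG).1
  obtain ⟨M, hM0, -, hMs, hMX⟩ := hSPR
  -- samples with few heavy rows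
  set Gb : Set d.Om := {ω | ∃ j : ℕ, j ∉ (∅ : Set ℕ) ∧ (j + 2) * h ≤ d.X ∧
    (Set.ncard {r | r ∈ J ω ∧ j * h ≤ r ∧ r < (j + 1) * h} : ℝ) < u * h} with hGb
  set Sb : Set ((Fin (n + 1) → d.Om) × (d.Om × d.Om)) :=
    {w | w ∈ NB b d m ns a k₀ ∧ w.2.1 ∉ Gb} with hSb
  have h1 : Pr (d.Q4 i) (NB b d m ns a k₀) ≤
      Pr (d.Q4 i) {w | w.2.1 ∈ Gb} + Pr (d.Q4 i) Sb := by
    refine le_trans (Pr_mono hQ0 fun w _ hw => ?_) (Pr_union_le hQ0 _ _)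
    by_cases hg : w.2.1 ∈ Gb
    · exact Or.inl hg
    · exact Or.inr ⟨hw, hg⟩
  have h2 : Pr (d.Q4 i) {w | w.2.1 ∈ Gb} = Pr d.P Gb := hm3.law (fun ω => ω ∈ Gb) True
  have h3 : Pr d.P Gb ≤ π₁ := hJ
  have h4 : Pr (d.Q4 i) Sb ≤ 4 / u * (e + ε₄) := by
    refine nlc_ker hQ0 (Finset.Ico (8 * ns) (d.X - 8 * ns)) _ _ (fun s w => M s w.1) hX hu hRi
      ?_ (fun s w => hM0 s w.1) ?_ Sb ?_
    · refine le_trans (le_of_eq ?_) hMX
      exact Finset.sum_congr rfl fun s _ => hm1.ex (M s)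
    · -- at every row
      intro s hs w hw hQw
      rw [Finset.mem_Ico] at hs
      have hw1 : 0 < d.Qr w.1 := ((glue_pos_iff hQ00 hQi0 w).1 hQw).1
      have hgr : 0 < ‖d.gr b (8 * ns) w‖ := lt_trans (by positivity) (NB_gr hS hw.1)
      have hMw := hMs s (Finset.mem_Ico.2 hs) w.1 hw1 (d.gr b (8 * ns) w) hgr
      have hc0 : ∀ v, 0 ≤ cond d.Qr (d.GA b m s) (d.GA b m s w.1) v :=
        fun v => cond_nonneg hQ00 _ _ v
      refine le_trans ?_ (add_le_add le_rfl hMw)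
      have e2 : ∑ v, cond d.Qr (d.GA b m s) (d.GA b m s w.1) v = 1 :=
        sum_cond d.Qr _ (law_pos hQ00 (d.GA b m s) hw1).ne'
      rw [Pr_eq, Pr_eq, ← e2, ← Finset.sum_add_distrib]
      refine Finset.sum_le_sum fun v _ => ?_
      rcases (hc0 v).eq_or_lt with h0 | h0
      · rw [← h0]
        simp
      obtain ⟨-, hg⟩ := (cond_pos_iff hQ00 _ _ v).1 h0
      rcases (nlc_pt hOK hS hn hs.1 (by omega : k + 2 ≤ k') (by omega : a + 1 ≤ k₁)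
        hw.1 hg).2 with hh | hh
      · rw [if_pos (show v ∈ {v' | |∑ j, d.gr b (8 * ns) w j * (d.yR (d.L (v' 0)) j -
          d.yR (d.L (w.1 0)) j)| < ‖d.gr b (8 * ns) w‖ * (2 : ℝ) ^ (-((s : ℤ) + a))} from hh)]
        split_ifs <;> linarith
      · rw [if_pos (show v ∈ {v | (2 : ℝ) ^ (-((s : ℤ) + Pool.OC.sc ‖d.gr b (8 * ns) w‖ + k₁)) ≤
          |d.Z b (d.T w.2.1) (d.T w.2.2) (d.y (d.L (w.1 0)), d.c (d.L (w.1 0))) -
            d.Z b (d.T w.2.1) (d.T w.2.2) (d.y (d.L (v 0)), d.c (d.L (v 0)))|} from hh)]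
        split_ifs <;> linarith
    · -- many rows
      intro w hw _
      have hgr := NB_gr hS hw.1
      have hgr' := gr_le hOK hS hn hw.1.1 (8 * ns)
      have hg0 : 0 < |‖d.gr b (8 * ns) w‖| := by
        rw [abs_norm]
        exact lt_trans (by positivity) hgr
      have q1 : -(8 * ns : ℤ) ≤ Pool.OC.sc ‖d.gr b (8 * ns) w‖ := by
        have := le_sc (a := -(2 * ns : ℤ)) hg0 (by rw [abs_norm, neg_neg]; exact hgr')
        omega
      have q2 : Pool.OC.sc ‖d.gr b (8 * ns) w‖ ≤ 7 * ns := by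
        have := sc_le (x := ‖d.gr b (8 * ns) w‖) (a := 6 * ns - 4 - a) (by
          rw [abs_norm]
          refine le_trans (le_of_eq ?_) hgr.le
          congr 1
          ring)
        omega
      have h7 := count_lev (J w.2.1) hS.h1 hS.hn hS.nX hu.le (fun j hj => by
        by_contra hcon
        exact hw.2 ⟨j, fun hh => hh, hj, not_le.1 hcon⟩) q1 q2
      refine h7.trans (le_of_eq ?_)
      congr 1
      congr 1
      ext s
      constructor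
      · rintro ⟨g1, g2, g3⟩
        exact ⟨g1, hw.1, g2, g3⟩
      · rintro ⟨g1, -, g2, g3⟩
        exact ⟨g1, g2, g3⟩
  calc Pr (d.Q4 i) (NB b d m ns a k₀) ≤ Pr (d.Q4 i) {w | w.2.1 ∈ Gb} + Pr (d.Q4 i) Sb := h1
    _ ≤ π₁ + 4 / u * (e + ε₄) := by rw [h2]; linarith

end Pool.M5
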