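import Pool.Agent.H73.KAF.RST
import Pool.Agent.H97.OC.Stmts

/-!
# The row NLC of the pure part of M5: lemmas which do not depend on the form of the data

Counting of rows in an interval, and the size of a form on a cell.
-/

set_option autoImplicit false

namespace Pool.M5.N2

open Finset Real
open Pool.Agent.H49.Ent Pool.Agent.H32.Dense Pool.STK Pool.KAF

/-- Many rows of `J₀` in an interval. -/
theorem count_Ico (J₀ : Set ℕ) [DecidablePred fun r => r ∈ J₀] {X h A B : ℕ} (h1 : 1 ≤ h)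
    (hB : B + h ≤ X) {u : ℝ} (hu : 0 ≤ u) (hJ : ∀ j : ℕ, (j + 2) * h ≤ X →
      u * h ≤ (Set.ncard {r | r ∈ J₀ ∧ j * h ≤ r ∧ r < (j + 1) * h} : ℝ)) :
    u * ((B : ℝ) - A - 2 * h) ≤ (((Finset.Ico A B).filter fun r => r ∈ J₀).card : ℝ) := by
  have hh : 0 < h := h1
  set j₀ : ℕ := A / h + 1 with hj₀
  set j₁ : ℕ := B / h with hj₁
  have hblock : ∀ j, j₀ ≤ j → j ≤ j₁ →
      ((j : ℝ) - j₀) * (u * h) ≤
        (((Finset.Ico (j₀ * h) (j * h)).filter fun r => r ∈ J₀).card : ℝ) := by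
    intro j hj hj'
    induction j, hj using Nat.le_induction with
    | base => simp
    | succ j hj ih =>
      have h3 := ih (by omega)
      have h4 : (j + 2) * h ≤ X := by
        have h5 : (j + 1) * h ≤ B := by
          have := Nat.div_mul_le_self B h
          calc (j + 1) * h ≤ j₁ * h := Nat.mul_le_mul_right _ hj'
            _ ≤ B := this
        have h6 : (j + 2) * h = (j + 1) * h + h := by ring
        omega
      have h5 := hJ j h4
      have h6 : Set.ncard {r | r ∈ J₀ ∧ j * h ≤ r ∧ r < (j + 1) * h} =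
          ((Finset.Ico (j * h) ((j + 1) * h)).filter fun r => r ∈ J₀).card := by
        rw [← Set.ncard_coe_finset]
        congr 1
        ext s
        simp only [Finset.coe_filter, Finset.mem_Ico, Set.mem_ofPred_eq]
        tauto
      rw [h6] at h5
      have h7 : (Finset.Ico (j₀ * h) ((j + 1) * h)).filter (fun r => r ∈ J₀) =
          (Finset.Ico (j₀ * h) (j * h)).filter (fun r => r ∈ J₀) ∪
          (Finset.Ico (j * h) ((j + 1) * h)).filter (fun r => r ∈ J₀) := by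
        rw [← Finset.filter_union, Finset.Ico_union_Ico_eq_Ico (Nat.mul_le_mul_right _ hj)
          (Nat.mul_le_mul_right _ (by omega))]
      have h8 : Disjoint ((Finset.Ico (j₀ * h) (j * h)).filter (fun r => r ∈ J₀))
          ((Finset.Ico (j * h) ((j + 1) * h)).filter (fun r => r ∈ J₀)) :=
        (Finset.Ico_disjoint_Ico_consecutive _ _ _).mono (Finset.filter_subset _ _)
          (Finset.filter_subset _ _)
      rw [h7, Finset.card_union_of_disjoint h8]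
      push_cast
      linarith
  have h3 : B < j₁ * h + h := Nat.lt_div_mul_add hh
  have h4 : A / h * h ≤ A := Nat.div_mul_le_self _ _
  have h5 : j₀ * h = A / h * h + h := by rw [hj₀]; ring
  have h7 : j₀ * h ≤ A + h := by omega
  have h8 : A < j₀ * h := by
    have := Nat.lt_div_mul_add hh (a := A)
    omega
  have h9 : j₁ * h ≤ B := Nat.div_mul_le_self _ _
  have h3' : (B : ℝ) < j₁ * h + h := by exact_mod_cast h3
  have h7' : (j₀ : ℝ) * h ≤ A + h := by exact_mod_cast h7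
  by_cases hj : j₀ ≤ j₁
  · have hb := hblock j₁ hj le_rfl
    have hsub : (Finset.Ico (j₀ * h) (j₁ * h)).filter (fun r => r ∈ J₀) ⊆
        (Finset.Ico A B).filter (fun r => r ∈ J₀) := by
      intro r hr
      rw [Finset.mem_filter, Finset.mem_Ico] at hr ⊢
      exact ⟨⟨by omega, by omega⟩, hr.2⟩
    have hc : ((((Finset.Ico (j₀ * h) (j₁ * h)).filter fun r => r ∈ J₀).card : ℕ) : ℝ) ≤
        (((Finset.Ico A B).filter fun r => r ∈ J₀).card : ℝ) := by
      exact_mod_cast Finset.card_le_card hsub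
    refine le_trans ?_ (hb.trans hc)
    have e1 : (B : ℝ) - A - 2 * h ≤ ((j₁ : ℝ) - j₀) * h := by linarith
    have e2 := mul_le_mul_of_nonneg_left e1 hu
    linarith
  · have h10 : (B : ℝ) - A - 2 * h ≤ 0 := by
      have h11 : (j₁ : ℝ) ≤ j₀ := by exact_mod_cast (not_le.1 hj).le
      have h12 : (j₁ : ℝ) * h ≤ j₀ * h :=
        mul_le_mul_of_nonneg_right h11 (Nat.cast_nonneg _)
      linarith
    exact (mul_nonpos_of_nonneg_of_nonpos hu h10).trans (Nat.cast_nonneg _)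

/-- Many heavy rows behind every level. -/
theorem count_lev (J₀ : Set ℕ) {X n h : ℕ} (h1 : 1 ≤ h) (hn : 64 * h ≤ n) (nX : 64 * n ≤ X)
    {u : ℝ} (hu : 0 ≤ u) (hJ : ∀ j : ℕ, (j + 2) * h ≤ X →
      u * h ≤ (Set.ncard {r | r ∈ J₀ ∧ j * h ≤ r ∧ r < (j + 1) * h} : ℝ)) {q : ℤ}
    (hq : -(8 * n : ℤ) ≤ q) (hq' : q ≤ 7 * n) :
    u / 2 * X ≤ (Set.ncard {s | s ∈ Finset.Ico (8 * n) (X - 8 * n) ∧ 0 ≤ (s : ℤ) + q ∧
      ((s : ℤ) + q).toNat ∈ J₀} : ℝ) := by
  classical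
  set A : ℕ := (8 * n + q : ℤ).toNat with hA
  set B : ℕ := ((X : ℤ) - 8 * n + q).toNat with hB
  have hA' : (A : ℤ) = 8 * n + q := by
    rw [hA, Int.toNat_of_nonneg (by omega)]
  have hB' : (B : ℤ) = X - 8 * n + q := by
    rw [hB, Int.toNat_of_nonneg (by omega)]
  have h3 := count_Ico J₀ (A := A) (B := B) h1 (by omega) hu hJ
  have h4 : ((Finset.Ico A B).filter fun r => r ∈ J₀).card =
      Set.ncard {s | s ∈ Finset.Ico (8 * n) (X - 8 * n) ∧ 0 ≤ (s : ℤ) + q ∧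
      ((s : ℤ) + q).toNat ∈ J₀} := by
    have h5 : {s | s ∈ Finset.Ico (8 * n) (X - 8 * n) ∧ 0 ≤ (s : ℤ) + q ∧
        ((s : ℤ) + q).toNat ∈ J₀} = (((Finset.Ico (8 * n) (X - 8 * n)).filter fun s =>
          ((s : ℤ) + q).toNat ∈ J₀ : Finset ℕ) : Set ℕ) := by
      ext s
      simp only [Set.mem_ofPred_eq, Finset.coe_filter, Finset.mem_Ico]
      constructor
      · rintro ⟨g1, -, g2⟩
        exact ⟨g1, g2⟩
      · rintro ⟨g1, g2⟩
        exact ⟨g1, by omega, g2⟩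
    rw [h5, Set.ncard_coe_finset]
    refine Finset.card_bij' (fun r _ => ((r : ℤ) - q).toNat) (fun s _ => ((s : ℤ) + q).toNat)
      ?_ ?_ ?_ ?_
    · intro r hr
      rw [Finset.mem_filter, Finset.mem_Ico] at hr ⊢
      have e1 : (((((r : ℤ) - q).toNat : ℕ) : ℤ) + q).toNat = r := by omega
      rw [e1]
      exact ⟨by omega, hr.2⟩
    · intro s hs
      rw [Finset.mem_filter, Finset.mem_Ico] at hs ⊢
      exact ⟨by omega, hs.2⟩
    · intro r hr
      rw [Finset.mem_filter, Finset.mem_Ico] at hr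
      show (((((r : ℤ) - q).toNat : ℕ) : ℤ) + q).toNat = r
      omega
    · intro s hs
      rw [Finset.mem_filter, Finset.mem_Ico] at hs
      show (((((s : ℤ) + q).toNat : ℕ) : ℤ) - q).toNat = s
      omega
  rw [← h4]
  refine le_trans ?_ h3
  have e1 : (A : ℝ) = 8 * n + q := by exact_mod_cast hA'
  have e2 : (B : ℝ) = X - 8 * n + q := by exact_mod_cast hB'
  rw [e1, e2]
  have e3 : (64 : ℝ) * h ≤ n := by exact_mod_cast hn
  have e4 : (64 : ℝ) * n ≤ X := by exact_mod_cast nX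
  have e5 : (0 : ℝ) ≤ n := Nat.cast_nonneg _
  have e6 : (1 : ℝ) / 2 * X ≤ (X - 8 * n + q : ℝ) - (8 * n + q) - 2 * h := by linarith
  have e7 := mul_le_mul_of_nonneg_left e6 hu
  linarith

/-- The level of a number. -/
theorem sc_spec {x : ℝ} (h : 0 < |x|) :
    (2 : ℝ) ^ (-Pool.OC.sc x) ≤ |x| ∧ |x| < (2 : ℝ) ^ (1 - Pool.OC.sc x) := by
  unfold Pool.OC.sc
  constructor
  · rw [neg_neg]
    have := Int.zpow_log_le_self (b := 2) (r := |x|) (by norm_num) h
    exact_mod_cast this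
  · have := Int.lt_zpow_succ_log_self (b := 2) (by norm_num) |x|
    have h2 : (1 : ℤ) - -Int.log 2 |x| = Int.log 2 |x| + 1 := by ring
    rw [h2]
    exact_mod_cast this

/-- The level is between the levels of bounds. -/
theorem sc_le {x : ℝ} {a : ℤ} (h : (2 : ℝ) ^ (-a) ≤ |x|) : Pool.OC.sc x ≤ a := by
  have h0 : 0 < |x| := lt_of_lt_of_le (by positivity) h
  have h2 := (sc_spec h0).2
  have h3 := lt_of_le_of_lt h h2
  have h4 := (zpow_lt_zpow_iff_right₀ (by norm_num : (1 : ℝ) < 2)).1 h3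
  omega

theorem le_sc {x : ℝ} {a : ℤ} (h0 : 0 < |x|) (h : |x| < (2 : ℝ) ^ (-a)) :
    a < Pool.OC.sc x := by
  have h2 := (sc_spec h0).1
  have h3 := lt_of_le_of_lt h2 h
  have h4 := (zpow_lt_zpow_iff_right₀ (by norm_num : (1 : ℝ) < 2)).1 h3
  omega

/-- A form on a cell: `D = U - g · dy + E`, with `U` and `E` small against `g`. -/
theorem form_pt {k : ℕ} {g dy : Fin k → ℝ} {D U E : ℝ} {s a k' k₁ : ℕ} {q : ℤ}
    (hq : (2 : ℝ) ^ (-q) ≤ ‖g‖) (hq' : ‖g‖ < (2 : ℝ) ^ (1 - q))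
    (hD : D = U - ∑ j, g j * dy j + E) (hU : |U| ≤ ‖g‖ * (2 : ℝ) ^ (-((s : ℤ) + a + 3)))
    (hE : |E| ≤ ‖g‖ * (2 : ℝ) ^ (-((s : ℤ) + a + 3))) (hdy : ∀ j, |dy j| ≤ (2 : ℝ) ^ (-(s : ℤ)))
    (hk' : k + 2 ≤ k') (hk₁ : a + 1 ≤ k₁) :
    |D| ≤ (2 : ℝ) ^ ((k' : ℤ) - (s + q)) ∧
    (|∑ j, g j * dy j| < ‖g‖ * (2 : ℝ) ^ (-((s : ℤ) + a)) ∨
      (2 : ℝ) ^ (-((s : ℤ) + q + k₁)) ≤ |D|) := by
  have hg0 : 0 ≤ ‖g‖ := norm_nonneg _
  have e8 : (2 : ℝ) ^ (-((s : ℤ) + a + 3)) = (1 / 8) * (2 : ℝ) ^ (-((s : ℤ) + a)) := by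
    rw [show -((s : ℤ) + a + 3) = (-3) + -((s : ℤ) + a) by ring,
      zpow_add₀ (by norm_num : (2 : ℝ) ≠ 0)]
    norm_num
  rw [e8] at hU hE
  have hpos : (0 : ℝ) < (2 : ℝ) ^ (-((s : ℤ) + a)) := by positivity
  constructor
  · have h1 : |∑ j, g j * dy j| ≤ k * (‖g‖ * (2 : ℝ) ^ (-(s : ℤ))) := by
      refine (Finset.abs_sum_le_sum_abs _ _).trans ?_
      have : ∀ j ∈ (Finset.univ : Finset (Fin k)), |g j * dy j| ≤ ‖g‖ * (2 : ℝ) ^ (-(s : ℤ)) := by
        intro j _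
        rw [abs_mul]
        exact mul_le_mul (norm_le_pi_norm g j) (hdy j) (abs_nonneg _) hg0
      refine (Finset.sum_le_sum this).trans (le_of_eq ?_)
      rw [Finset.sum_const, Finset.card_univ, Fintype.card_fin, nsmul_eq_mul]
    have h2 : (2 : ℝ) ^ (-((s : ℤ) + a)) ≤ (2 : ℝ) ^ (-(s : ℤ)) :=
      zpow_le_zpow_right₀ (by norm_num) (by omega)
    have h3 : |D| ≤ (k + 1) * (‖g‖ * (2 : ℝ) ^ (-(s : ℤ))) := by
      rw [hD]
      have h4 := abs_add_le (U - ∑ j, g j * dy j) E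
      have h5 := abs_sub U (∑ j, g j * dy j)
      have h6 := mul_le_mul_of_nonneg_left h2 hg0
      have h7 : 0 ≤ ‖g‖ * (2 : ℝ) ^ (-(s : ℤ)) := by positivity
      linarith
    refine h3.trans ?_
    have h4 : ((k : ℝ) + 1) ≤ (2 : ℝ) ^ (k' - 1) := by
      have h5 : k + 1 ≤ 2 ^ (k' - 1) := by
        have h6 : k + 1 ≤ 2 ^ (k + 1) := Nat.lt_two_pow_self.le
        exact h6.trans (Nat.pow_le_pow_right (by norm_num) (by omega))
      exact_mod_cast h5
    have h5 : ‖g‖ * (2 : ℝ) ^ (-(s : ℤ)) ≤ (2 : ℝ) ^ (1 - q) * (2 : ℝ) ^ (-(s : ℤ)) :=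
      mul_le_mul_of_nonneg_right hq'.le (by positivity)
    calc ((k : ℝ) + 1) * (‖g‖ * (2 : ℝ) ^ (-(s : ℤ)))
        ≤ (2 : ℝ) ^ (k' - 1) * ((2 : ℝ) ^ (1 - q) * (2 : ℝ) ^ (-(s : ℤ))) :=
          mul_le_mul h4 h5 (by positivity) (by positivity)
      _ = (2 : ℝ) ^ ((k' : ℤ) - (s + q)) := by
          rw [← zpow_natCast (2 : ℝ) (k' - 1), ← zpow_add₀ (by norm_num),
            ← zpow_add₀ (by norm_num)]
          congr 1
          have : ((k' - 1 : ℕ) : ℤ) = k' - 1 := by omega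
          rw [this]
          ring
  · by_cases hn : |∑ j, g j * dy j| < ‖g‖ * (2 : ℝ) ^ (-((s : ℤ) + a))
    · exact Or.inl hn
    · right
      rw [not_lt] at hn
      have h3 : ‖g‖ * (2 : ℝ) ^ (-((s : ℤ) + a)) * (3 / 4) ≤ |D| := by
        rw [hD]
        have h4 : |∑ j, g j * dy j| ≤ |U - ∑ j, g j * dy j + E| + |U| + |E| := by
          have h5 : ∑ j, g j * dy j = -(U - ∑ j, g j * dy j + E) + U + E := by ring
          calc |∑ j, g j * dy j| = |-(U - ∑ j, g j * dy j + E) + U + E| := by rw [← h5]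
            _ ≤ |-(U - ∑ j, g j * dy j + E) + U| + |E| := abs_add_le _ _
            _ ≤ |-(U - ∑ j, g j * dy j + E)| + |U| + |E| := by
                have := abs_add_le (-(U - ∑ j, g j * dy j + E)) U
                linarith
            _ = _ := by rw [abs_neg]
        have h6 : ‖g‖ * (1 / 8 * (2 : ℝ) ^ (-((s : ℤ) + a))) =
            ‖g‖ * (2 : ℝ) ^ (-((s : ℤ) + a)) * (1 / 8) := by ring
        rw [h6] at hU hE
        linarith
      refine le_trans ?_ h3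
      have h4 : (2 : ℝ) ^ (-((s : ℤ) + q + k₁)) ≤
          (2 : ℝ) ^ (-q) * (2 : ℝ) ^ (-((s : ℤ) + a)) * (1 / 2) := by
        have h5 : (2 : ℝ) ^ (-q) * (2 : ℝ) ^ (-((s : ℤ) + a)) * (1 / 2) =
            (2 : ℝ) ^ (-q + -((s : ℤ) + a) + -1) := by
          rw [zpow_add₀ (by norm_num : (2 : ℝ) ≠ 0), zpow_add₀ (by norm_num : (2 : ℝ) ≠ 0)]
          norm_num
        rw [h5]
        exact zpow_le_zpow_right₀ (by norm_num) (by omega)
      have h6 : (2 : ℝ) ^ (-q) * (2 : ℝ) ^ (-((s : ℤ) + a)) ≤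
          ‖g‖ * (2 : ℝ) ^ (-((s : ℤ) + a)) := mul_le_mul_of_nonneg_right hq hpos.le
      have h7 : 0 ≤ (2 : ℝ) ^ (-q) * (2 : ℝ) ^ (-((s : ℤ) + a)) := by positivity
      linarith

/-- The bad samples see many rows, and at each of them either the form is hit or the copy is
near. -/
theorem nlc_ker {Ω : Type} [Fintype Ω] {Q : Ω → ℝ} (hQ : ∀ u, 0 ≤ Q u) (F : Finset ℕ)
    (As : ℕ → Set Ω) (f M : ℕ → Ω → ℝ) {X e ε u : ℝ} (hX : 0 < X) (hu : 0 < u)
    (hf : ∑ s ∈ F, Ex Q (Set.indicator (As s) (f s)) ≤ e * X)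
    (hM : ∑ s ∈ F, Ex Q (M s) ≤ ε * X) (hM0 : ∀ s w, 0 ≤ M s w)
    (h1 : ∀ s ∈ F, ∀ w ∈ As s, 0 < Q w → 1 ≤ f s w + M s w) (S : Set Ω)
    (hS : ∀ w ∈ S, 0 < Q w → u / 2 * X ≤ (Set.ncard {s | s ∈ F ∧ w ∈ As s} : ℝ)) :
    Pr Q S ≤ 4 / u * (e + ε) := by
  classical
  have h2 : ∀ s ∈ F, Ex Q (Set.indicator (As s) (fun _ => 1)) ≤
      Ex Q (Set.indicator (As s) (f s)) + Ex Q (M s) := by
    intro s hs
    rw [← Ex_add]
    refine Ex_mono hQ fun w hw => ?_
    by_cases hA : w ∈ As s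
    · rw [Set.indicator_of_mem hA, Set.indicator_of_mem hA]
      exact h1 s hs w hA hw
    · rw [Set.indicator_of_notMem hA, Set.indicator_of_notMem hA, zero_add]
      exact hM0 s w
  have h3 := Finset.sum_le_sum h2
  rw [Finset.sum_add_distrib] at h3
  have h4 : u / 2 * X * Pr Q S ≤ ∑ s ∈ F, Ex Q (Set.indicator (As s) (fun _ => 1)) := by
    unfold Ex
    rw [Finset.sum_comm, Pr_eq, Finset.mul_sum]
    refine Finset.sum_le_sum fun w _ => ?_
    rw [← Finset.mul_sum]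
    have hnn : 0 ≤ ∑ s ∈ F, (As s).indicator (fun _ => (1 : ℝ)) w :=
      Finset.sum_nonneg fun s _ => Set.indicator_nonneg (fun _ _ => zero_le_one) _
    by_cases hw : w ∈ S
    · rw [if_pos hw, mul_comm]
      rcases (hQ w).eq_or_lt with h0 | h0
      · rw [← h0]; simp
      refine mul_le_mul_of_nonneg_left ?_ (hQ w)
      refine (hS w hw h0).trans (le_of_eq ?_)
      have h8 : Set.ncard {s | s ∈ F ∧ w ∈ As s} = (F.filter fun s => w ∈ As s).card := by
        rw [← Set.ncard_coe_finset]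
        congr 1
        ext s
        rw [Finset.coe_filter]
      rw [h8, Finset.card_filter]
      push_cast
      refine Finset.sum_congr rfl fun s _ => ?_
      by_cases hsA : w ∈ As s
      · rw [if_pos hsA, Set.indicator_of_mem hsA]
      · rw [if_neg hsA, Set.indicator_of_notMem hsA]
    · rw [if_neg hw, mul_zero]
      exact mul_nonneg (hQ w) hnn
  have h5 : u / 2 * Pr Q S ≤ e + ε := by
    have : (u / 2 * Pr Q S) * X ≤ (e + ε) * X := by linarith
    exact le_of_mul_le_mul_right this hX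
  have h6 : 0 ≤ Pr Q S := Pr_nonneg hQ _
  rw [div_mul_eq_mul_div, le_div_iff₀ hu]
  nlinarith

end Pool.M5.N2
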