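import Pool.Agent.H48.M5.Spr
import Pool.Agent.H21.M5.NlcA
import Pool.Agent.H21.M5.Zr2
import Pool.Agent.H92.M5.AlsF
import Pool.Agent.H92.M5.Line

/-!
# The row SPRG of the pure part of M5: one cell
-/

set_option autoImplicit false

namespace Pool.M5.SG

open Finset Real
open Pool.Agent.H49.Ent Pool.Agent.H32.Dense Pool.STK Pool.KAF
open Pool.M5.N2 Pool.M5.ALS Pool.M5.A92 Pool.M5T

/-- The derivative of a power. -/
theorem pow_der {x y : ℝ} (hx : 0 ≤ x) (hx1 : x ≤ 1) (hy : 0 ≤ y) (hy1 : y ≤ 1) (a : ℕ) :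
    |y ^ (a + 1) - x ^ (a + 1) - (a + 1) * x ^ a * (y - x)| ≤ (a + 1) ^ 2 * (y - x) ^ 2 := by
  induction a with
  | zero =>
    have : y ^ (0 + 1) - x ^ (0 + 1) - ((0 : ℕ) + 1) * x ^ 0 * (y - x) = 0 := by
      push_cast; ring
    rw [this, abs_zero]
    positivity
  | succ a ih =>
    have e1 : y ^ (a + 1 + 1) - x ^ (a + 1 + 1) - ((a + 1 : ℕ) + 1) * x ^ (a + 1) * (y - x) =
        y * (y ^ (a + 1) - x ^ (a + 1) - (a + 1) * x ^ a * (y - x)) +
          (a + 1) * x ^ a * (y - x) ^ 2 := by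
      push_cast
      ring
    rw [e1]
    have h1 : |y * (y ^ (a + 1) - x ^ (a + 1) - (a + 1) * x ^ a * (y - x))| ≤
        (a + 1) ^ 2 * (y - x) ^ 2 := by
      rw [abs_mul, abs_of_nonneg hy]
      exact (mul_le_of_le_one_left (abs_nonneg _) hy1).trans ih
    have h2 : |((a : ℝ) + 1) * x ^ a * (y - x) ^ 2| ≤ (a + 1) * (y - x) ^ 2 := by
      rw [abs_of_nonneg (by positivity)]
      have h3 : x ^ a ≤ 1 := pow_le_one₀ hx hx1
      have h4 : (0 : ℝ) ≤ (a + 1) * (y - x) ^ 2 := by positivity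
      nlinarith only [h3, h4]
    refine (abs_add_le _ _).trans ?_
    push_cast
    have h5 : (0 : ℝ) ≤ (y - x) ^ 2 := by positivity
    have h6 : (0 : ℝ) ≤ a := Nat.cast_nonneg _
    nlinarith only [h1, h2]

variable {k n : ℕ} {I : Type} [Fintype I] {b : Bas k I} {d : LDat k n I}

/-! ### Cells -/

/-- The conditional law on a cell only depends on the cell. -/
theorem cond_congr_at {Ω S U : Type} [Fintype Ω] (p : Ω → ℝ) (F : Ω → S) (G : Ω → U) {ω : Ω}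
    (h : ∀ ω', F ω' = F ω ↔ G ω' = G ω) : cond p F (F ω) = cond p G (G ω) := by
  classical
  funext ω'
  unfold Pool.Agent.H49.Ent.cond law
  have h1 : ∀ v, (F v = F ω) = (G v = G ω) := fun v => propext (h v)
  simp only [h1]

theorem Cl_iff {m : (Fin (n + 1) → d.Om) → ℤ} {k₀ s : ℕ} {v : Fin (n + 1) → d.Om}
    (hv : d.sep k₀ v) (v' : Fin (n + 1) → d.Om) :
    Pool.SLO.Cl (d.lb m) d.yv (d.bv b m k₀) s v' = Pool.SLO.Cl (d.lb m) d.yv (d.bv b m k₀) s v ↔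
      d.GA b m s v' = d.GA b m s v := by
  have key : ∀ w : Fin (n + 1) → d.Om, d.sep k₀ w → ∀ a,
      ⌊(2 : ℝ) ^ s * d.bv b m k₀ w a⌋ = ⌊(2 : ℝ) ^ ((s : ℤ) + m w) * d.cs b w a⌋ := by
    intro w hw a
    unfold LDat.bv
    rw [if_pos hw, zpow_add₀ (by norm_num), zpow_natCast, mul_assoc]
  constructor
  · intro h
    have h1 : (fun j => d.T (v' j), m v') = (fun j => d.T (v j), m v) := congrArg (fun z => z.1) h
    have h2 := congrArg (fun z => z.2.1) h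
    have h3 := congrArg (fun z => z.2.2) h
    have hv' : d.sep k₀ v' := (sep_congr (fun j => congrFun (congrArg Prod.fst h1) j)).2 hv
    unfold LDat.GA
    refine Prod.ext h1 (Prod.ext h2 ?_)
    funext a
    show ⌊(2 : ℝ) ^ ((s : ℤ) + m v') * d.cs b v' a⌋ = ⌊(2 : ℝ) ^ ((s : ℤ) + m v) * d.cs b v a⌋
    rw [← key v' hv', ← key v hv]
    exact congrFun h3 a
  · intro h
    have h1 : (fun j => d.T (v' j), m v') = (fun j => d.T (v j), m v) := congrArg (fun z => z.1) h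
    have h2 := congrArg (fun z => z.2.1) h
    have h3 := congrArg (fun z => z.2.2) h
    have hv' : d.sep k₀ v' := (sep_congr (fun j => congrFun (congrArg Prod.fst h1) j)).2 hv
    unfold Pool.SLO.Cl
    refine Prod.ext h1 (Prod.ext h2 ?_)
    funext a
    show ⌊(2 : ℝ) ^ s * d.bv b m k₀ v' a⌋ = ⌊(2 : ℝ) ^ s * d.bv b m k₀ v a⌋
    rw [key v' hv', key v hv]
    exact congrFun h3 a

/-! ### Forms -/

/-- The form of a pair. -/
noncomputable def fm (b : Bas k I) (d : LDat k n I) (m : (Fin (n + 1) → d.Om) → ℤ) (ns : ℕ)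
    (v : Fin (n + 1) → d.Om) (w : d.Om × d.Om) : Pool.SLO.Frm k n :=
  (fun a => d.dt a w / d.ta w, fun j => (2 : ℝ) ^ m v * d.gr b (8 * ns) (v, w) j / d.ta w)

/-- The difference of the normal positions of two lines at the times of a pair. -/
noncomputable def dZ (b : Bas k I) (d : LDat k n I) (w : d.Om × d.Om)
    (v v' : Fin (n + 1) → d.Om) : ℝ :=
  d.Z b (d.T w.1) (d.T w.2) (d.y (d.L (v 0)), d.c (d.L (v 0))) -
    d.Z b (d.T w.1) (d.T w.2) (d.y (d.L (v' 0)), d.c (d.L (v' 0)))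

/-- The main part of the difference. -/
noncomputable def mZ (b : Bas k I) (d : LDat k n I) (ns : ℕ) (w : d.Om × d.Om)
    (v v' : Fin (n + 1) → d.Om) : ℝ :=
  ∑ a, d.dt a w * (d.cs b v a - d.cs b v' a) -
    ∑ j, d.gr b (8 * ns) (v, w) j * (d.yR (d.L (v 0)) j - d.yR (d.L (v' 0)) j)

/-- The Taylor error. -/
theorem dZ_mZ {A : ℕ} {c : ℝ} (hOK : d.OK b A c) {ns h : ℕ} {m : (Fin (n + 1) → d.Om) → ℤ}
    (hS : Siz b d ns h m c) {k₀ : ℕ} (hn : Cr n k₀ ≤ ns) {s : ℕ} (hs : 8 * ns ≤ s)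
    (w : d.Om × d.Om) {v v' : Fin (n + 1) → d.Om} (hv : d.sep k₀ v)
    (hG : d.GA b m s v' = d.GA b m s v) :
    |dZ b d w v v' - mZ b d ns w v v'| ≤ (2 : ℝ) ^ (-(6 * ns : ℤ) - 30 - s) := by
  have h1 := zr_close hOK hS hn hs (u := (v, w)) (v := v') hv hG
  have h2 : ‖d.yR (d.L (v 0)) - d.yR (d.L (v' 0))‖ ≤ (2 : ℝ) ^ (-(s : ℤ)) :=
    (pi_norm_le_iff_of_nonneg (by positivity)).2 (GA_dy hG)
  refine h1.trans ((mul_le_mul_of_nonneg_left h2 (by positivity)).trans (le_of_eq ?_))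
  rw [← zpow_add₀ (by norm_num)]
  congr 1

/-- The value of the form of a pair. -/
theorem fm_ev {m : (Fin (n + 1) → d.Om) → ℤ} {ns k₀ s : ℕ} (w : d.Om × d.Om)
    {v v' : Fin (n + 1) → d.Om} (hv : d.sep k₀ v) (hG : d.GA b m s v' = d.GA b m s v) :
    (fm b d m ns v w).ev (d.bv b m k₀ v') (d.yv v') -
      (fm b d m ns v w).ev (d.bv b m k₀ v) (d.yv v) =
      -((2 : ℝ) ^ m v / d.ta w) * mZ b d ns w v v' := by
  have hv' : d.sep k₀ v' := (sep_congr (GA_T hG)).2 hv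
  have hm : m v' = m v := GA_m hG
  unfold Pool.SLO.Frm.ev fm mZ LDat.bv LDat.yv
  simp only [if_pos hv, if_pos hv', hm]
  have e1 : ∀ (f g : Fin n → ℝ) (F G : Fin k → ℝ), (∑ a, f a - ∑ j, F j) - (∑ a, g a - ∑ j, G j) =
      ∑ a, (f a - g a) - ∑ j, (F j - G j) := by
    intro f g F G
    rw [Finset.sum_sub_distrib, Finset.sum_sub_distrib]
    ring
  rw [e1, mul_sub, Finset.mul_sum, Finset.mul_sum]
  congr 1
  · exact Finset.sum_congr rfl fun a _ => by ring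
  · exact Finset.sum_congr rfl fun j _ => by ring

omit [Fintype I] in
/-- The scale of a pair. -/
theorem ta_le {i : ℕ} {w : d.Om × d.Om} (h : d.Ti i w.1 = d.Ti i w.2) :
    |d.ta w| ≤ (2 : ℝ) ^ (-(i : ℤ)) := by
  have h1 := Int.abs_sub_lt_one_of_floor_eq_floor h
  rw [← mul_sub, abs_mul, abs_of_pos (by positivity : (0 : ℝ) < 2 ^ i)] at h1
  unfold LDat.ta
  rw [abs_sub_comm, zpow_neg, zpow_natCast, ← one_div, le_div_iff₀ (by positivity), mul_comm]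
  exact h1.le

/-- The event of the pairs which are used. -/
def Wp (b : Bas k I) (d : LDat k n I) (m : (Fin (n + 1) → d.Om) → ℤ) (ns k₀ : ℕ) :
    Set ((Fin (n + 1) → d.Om) × (d.Om × d.Om)) :=
  {u | d.sep k₀ u.1 ∧ (2 : ℝ) ^ (-(4 * ns : ℤ)) ≤ |d.ta u.2| ∧
    ‖d.gr b (8 * ns) u‖ ≤ (2 : ℝ) ^ (1 - m u.1) * |d.ta u.2|}

/-- The form of a used pair is not large. -/
theorem dZ_le {A : ℕ} {c : ℝ} (hOK : d.OK b A c) {ns h : ℕ} {m : (Fin (n + 1) → d.Om) → ℤ}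
    (hS : Siz b d ns h m c) {k₀ : ℕ} (hn : Cr n k₀ ≤ ns) {s i k' : ℕ} (hs : 8 * ns ≤ s)
    (hk' : k + 2 * n + 6 ≤ k') {u : (Fin (n + 1) → d.Om) × (d.Om × d.Om)}
    {v' : Fin (n + 1) → d.Om} (hu : u ∈ Wp b d m ns k₀) (hi : |d.ta u.2| ≤ (2 : ℝ) ^ (-(i : ℤ)))
    (hG : d.GA b m s v' = d.GA b m s u.1) :
    |dZ b d u.2 u.1 v'| ≤ (2 : ℝ) ^ ((k' : ℤ) - (s + (m u.1 + i))) := by
  obtain ⟨hsep, hta, hgr⟩ := hu
  have h1 := dZ_mZ hOK hS hn hs u.2 hsep hG
  have h2 : |∑ a, d.dt a u.2 * (d.cs b u.1 a - d.cs b v' a)| ≤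
      (n : ℝ) ^ 2 * |d.ta u.2| * (2 : ℝ) ^ (-((s : ℤ) + m u.1)) :=
    sum_dt_le hOK.hth u.2 (fun a => d.cs b u.1 a - d.cs b v' a) (GA_dcs hG)
  have h3 : |∑ j, d.gr b (8 * ns) u j * (d.yR (d.L (u.1 0)) j - d.yR (d.L (v' 0)) j)| ≤
      2 * k * (|d.ta u.2| * (2 : ℝ) ^ (-((s : ℤ) + m u.1))) := by
    refine (Finset.abs_sum_le_sum_abs _ _).trans ?_
    have h4 : ∀ j ∈ (univ : Finset (Fin k)), |d.gr b (8 * ns) u j *
        (d.yR (d.L (u.1 0)) j - d.yR (d.L (v' 0)) j)| ≤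
        2 * (|d.ta u.2| * (2 : ℝ) ^ (-((s : ℤ) + m u.1))) := by
      intro j _
      rw [abs_mul]
      refine (mul_le_mul ((norm_le_pi_norm (d.gr b (8 * ns) u) j).trans hgr) (GA_dy hG j)
        (abs_nonneg _) (by positivity)).trans (le_of_eq ?_)
      have e1 : (2 : ℝ) ^ (1 - m u.1) * (2 : ℝ) ^ (-(s : ℤ)) =
          2 * (2 : ℝ) ^ (-((s : ℤ) + m u.1)) := by
        rw [← zpow_add₀ (by norm_num), show (2 : ℝ) * (2 : ℝ) ^ (-((s : ℤ) + m u.1)) =
          (2 : ℝ) ^ (1 : ℤ) * (2 : ℝ) ^ (-((s : ℤ) + m u.1)) by norm_num,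
          ← zpow_add₀ (by norm_num)]
        congr 1
        ring
      calc (2 : ℝ) ^ (1 - m u.1) * |d.ta u.2| * (2 : ℝ) ^ (-(s : ℤ))
          = ((2 : ℝ) ^ (1 - m u.1) * (2 : ℝ) ^ (-(s : ℤ))) * |d.ta u.2| := by ring
        _ = _ := by rw [e1]; ring
    refine (Finset.sum_le_sum h4).trans (le_of_eq ?_)
    rw [Finset.sum_const, Finset.card_univ, Fintype.card_fin, nsmul_eq_mul]
    ring
  have h4 : (2 : ℝ) ^ (-(6 * ns : ℤ) - 30 - s) ≤
      |d.ta u.2| * (2 : ℝ) ^ (-((s : ℤ) + m u.1)) := by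
    refine le_trans ?_ (mul_le_mul_of_nonneg_right hta (by positivity))
    rw [← zpow_add₀ (by norm_num)]
    refine zpow_le_zpow_right₀ (by norm_num) ?_
    have := hS.m2 u.1
    omega
  exact by
   have h5 : |dZ b d u.2 u.1 v'| ≤
       ((n : ℝ) ^ 2 + 2 * k + 1) * (|d.ta u.2| * (2 : ℝ) ^ (-((s : ℤ) + m u.1))) := by
     have e1 : dZ b d u.2 u.1 v' = (dZ b d u.2 u.1 v' - mZ b d ns u.2 u.1 v') +
         (∑ a, d.dt a u.2 * (d.cs b u.1 a - d.cs b v' a) -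
           ∑ j, d.gr b (8 * ns) u j * (d.yR (d.L (u.1 0)) j - d.yR (d.L (v' 0)) j)) := by
       show _ = (_ - mZ b d ns u.2 u.1 v') + mZ b d ns u.2 u.1 v'
       ring
     rw [e1]
     have e2 := abs_add_le (dZ b d u.2 u.1 v' - mZ b d ns u.2 u.1 v')
       (∑ a, d.dt a u.2 * (d.cs b u.1 a - d.cs b v' a) -
           ∑ j, d.gr b (8 * ns) u j * (d.yR (d.L (u.1 0)) j - d.yR (d.L (v' 0)) j))
     have e3 := abs_sub (∑ a, d.dt a u.2 * (d.cs b u.1 a - d.cs b v' a))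
           (∑ j, d.gr b (8 * ns) u j * (d.yR (d.L (u.1 0)) j - d.yR (d.L (v' 0)) j))
     linarith only [h1, h2, h3, h4, e2, e3]
   refine h5.trans ?_
   have h6 : |d.ta u.2| * (2 : ℝ) ^ (-((s : ℤ) + m u.1)) ≤
       (2 : ℝ) ^ (-((s : ℤ) + (m u.1 + i))) := by
     refine (mul_le_mul_of_nonneg_right hi (by positivity)).trans (le_of_eq ?_)
     rw [← zpow_add₀ (by norm_num)]
     congr 1
     ring
   have h7 : (n : ℝ) ^ 2 + 2 * k + 1 ≤ (2 : ℝ) ^ k' := by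
     have k1 : n ^ 2 ≤ 2 ^ (2 * n) := by
       have : n ≤ 2 ^ n := Nat.lt_two_pow_self.le
       calc n ^ 2 ≤ (2 ^ n) ^ 2 := Nat.pow_le_pow_left this 2
         _ = 2 ^ (2 * n) := by rw [← pow_mul, mul_comm]
     have k2 : k + 1 ≤ 2 ^ (k + 1) := Nat.lt_two_pow_self.le
     have k3 : 2 ^ (2 * n) ≤ 2 ^ (k + 2 * n + 2) := Nat.pow_le_pow_right (by norm_num) (by omega)
     have k4 : 2 ^ (k + 1) ≤ 2 ^ (k + 2 * n + 2) := Nat.pow_le_pow_right (by norm_num) (by omega)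
     have k5 : n ^ 2 + 2 * k + 1 ≤ 4 * 2 ^ (k + 2 * n + 2) := by omega
     have k6 : 4 * 2 ^ (k + 2 * n + 2) ≤ 2 ^ k' := by
       calc 4 * 2 ^ (k + 2 * n + 2) = 2 ^ (k + 2 * n + 4) := by ring
         _ ≤ 2 ^ k' := Nat.pow_le_pow_right (by norm_num) (by omega)
     exact_mod_cast k5.trans k6
   exact by
    calc ((n : ℝ) ^ 2 + 2 * k + 1) * (|d.ta u.2| * (2 : ℝ) ^ (-((s : ℤ) + m u.1)))
        ≤ (2 : ℝ) ^ k' * (2 : ℝ) ^ (-((s : ℤ) + (m u.1 + i))) :=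
          mul_le_mul h7 h6 (by positivity) (by positivity)
      _ = (2 : ℝ) ^ ((k' : ℤ) - (s + (m u.1 + i))) := by
          rw [← zpow_natCast (2 : ℝ) k', ← zpow_add₀ (by norm_num), ← sub_eq_add_neg]

/-- The probability that the form of a pair hits its row. -/
noncomputable def hit (b : Bas k I) (d : LDat k n I) (m : (Fin (n + 1) → d.Om) → ℤ) (k₁ i s : ℕ)
    (v : Fin (n + 1) → d.Om) (w : d.Om × d.Om) : ℝ :=
  Pr (cond d.Qr (d.GA b m s) (d.GA b m s v))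
    {v' | (2 : ℝ) ^ (-((s : ℤ) + (m v + i) + k₁)) ≤ |dZ b d w v v'|}

/-- A form which does not hit its row is almost constant. -/
theorem atm_of {A : ℕ} {c : ℝ} (hOK : d.OK b A c) {ns h : ℕ} {m : (Fin (n + 1) → d.Om) → ℤ}
    (hS : Siz b d ns h m c) {k₀ : ℕ} (hn : Cr n k₀ ≤ ns) {s i k'' K k₁ : ℕ} (hs : 8 * ns ≤ s)
    (hi : i ≤ ns) (hk : k'' + K + 1 ≤ k₁) (hk₁ : k₁ ≤ ns) {v : Fin (n + 1) → d.Om}
    (hv : d.sep k₀ v) {w : d.Om × d.Om} (hw : (2 : ℝ) ^ (-((i : ℤ) + k'')) ≤ |d.ta w|) {e' : ℝ}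
    (he : hit b d m k₁ i s v w ≤ e') :
    Pool.SLO.Atm d.Qr (d.lb m) d.yv (d.bv b m k₀) K e' s v (fm b d m ns v w) := by
  have hP := hOK.law.nonneg
  have hQ0 : ∀ v, 0 ≤ d.Qr v := (Qr_law hOK).nonneg
  unfold Pool.SLO.Atm
  rw [cond_congr_at d.Qr _ (d.GA b m s) (Cl_iff hv)]
  refine le_trans (Pr_mono (fun v' => cond_nonneg hQ0 _ _ v') ?_) he
  intro v' hv' hlt
  obtain ⟨-, hG⟩ := (cond_pos_iff hQ0 _ _ v').1 hv'
  have hta0 : 0 < |d.ta w| := lt_of_lt_of_le (by positivity) hw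
  have h1 : 1 / (2 : ℝ) ^ (s + K) < |-((2 : ℝ) ^ m v / d.ta w) * mZ b d ns w v v'| := by
    rw [← fm_ev w hv hG]
    exact hlt
  rw [abs_mul, abs_neg, abs_div, abs_of_pos (by positivity : (0 : ℝ) < (2 : ℝ) ^ m v)] at h1
  have h2 : |d.ta w| * (2 : ℝ) ^ (-((s : ℤ) + K + m v)) < |mZ b d ns w v v'| := by
    have e1 : 1 / (2 : ℝ) ^ (s + K) = (2 : ℝ) ^ (-((s : ℤ) + K)) := by
      rw [zpow_neg, one_div, ← Nat.cast_add, zpow_natCast]
    rw [e1, div_mul_eq_mul_div, lt_div_iff₀ hta0] at h1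
    have e2 : (2 : ℝ) ^ (-((s : ℤ) + K)) * |d.ta w| =
        (2 : ℝ) ^ m v * (|d.ta w| * (2 : ℝ) ^ (-((s : ℤ) + K + m v))) := by
      have e3 : (2 : ℝ) ^ (-((s : ℤ) + K)) =
          (2 : ℝ) ^ m v * (2 : ℝ) ^ (-((s : ℤ) + K + m v)) := by
        rw [← zpow_add₀ (by norm_num)]
        congr 1
        ring
      rw [e3]
      ring
    rw [e2] at h1
    exact lt_of_mul_lt_mul_left h1 (by positivity)
  have h3 := dZ_mZ hOK hS hn hs w hv hG
  have h4 : (2 : ℝ) ^ (-(6 * ns : ℤ) - 30 - s) ≤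
      (1 / 2) * (|d.ta w| * (2 : ℝ) ^ (-((s : ℤ) + K + m v))) := by
    have e1 : (2 : ℝ) ^ (-((i : ℤ) + k'')) * (2 : ℝ) ^ (-((s : ℤ) + K + m v)) ≤
        |d.ta w| * (2 : ℝ) ^ (-((s : ℤ) + K + m v)) :=
      mul_le_mul_of_nonneg_right hw (by positivity)
    have e2 : (2 : ℝ) ^ (-(6 * ns : ℤ) - 30 - s) ≤
        (1 / 2) * ((2 : ℝ) ^ (-((i : ℤ) + k'')) * (2 : ℝ) ^ (-((s : ℤ) + K + m v))) := by
      rw [show (1 / 2 : ℝ) = (2 : ℝ) ^ (-1 : ℤ) by norm_num, ← zpow_add₀ (by norm_num),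
        ← zpow_add₀ (by norm_num)]
      refine zpow_le_zpow_right₀ (by norm_num) ?_
      have := hS.m2 v
      omega
    linarith only [e1, e2]
  show (2 : ℝ) ^ (-((s : ℤ) + (m v + i) + k₁)) ≤ |dZ b d w v v'|
  exact by
   have h5 : (1 / 2) * (|d.ta w| * (2 : ℝ) ^ (-((s : ℤ) + K + m v))) ≤ |dZ b d w v v'| := by
     have e1 : |mZ b d ns w v v'| ≤ |dZ b d w v v'| + |dZ b d w v v' - mZ b d ns w v v'| := by
       have := abs_sub_abs_le_abs_sub (mZ b d ns w v v') (dZ b d w v v')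
       rw [abs_sub_comm (mZ b d ns w v v')] at this
       linarith only [this]
     linarith only [h2, h3, h4, e1]
   refine le_trans ?_ h5
   have e1 : (2 : ℝ) ^ (-((i : ℤ) + k'')) * (2 : ℝ) ^ (-((s : ℤ) + K + m v)) ≤
       |d.ta w| * (2 : ℝ) ^ (-((s : ℤ) + K + m v)) :=
     mul_le_mul_of_nonneg_right hw (by positivity)
   have e2 : (2 : ℝ) ^ (-((s : ℤ) + (m v + i) + k₁)) ≤
       (1 / 2) * ((2 : ℝ) ^ (-((i : ℤ) + k'')) * (2 : ℝ) ^ (-((s : ℤ) + K + m v))) := by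
     rw [show (1 / 2 : ℝ) = (2 : ℝ) ^ (-1 : ℤ) by norm_num, ← zpow_add₀ (by norm_num),
       ← zpow_add₀ (by norm_num)]
     refine zpow_le_zpow_right₀ (by norm_num) ?_
     omega
   linarith only [e1, e2]

/-! ### One cell -/

open Classical in
/-- The heavy rows which are hit. -/
noncomputable def Fh (b : Bas k I) (d : LDat k n I) (J : d.Om → Set ℕ)
    (m : (Fin (n + 1) → d.Om) → ℤ) (ns k₀ k₁ i s : ℕ)
    (u : (Fin (n + 1) → d.Om) × (d.Om × d.Om)) : ℝ :=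
  if u ∈ Wp b d m ns k₀ ∧ 0 ≤ (s : ℤ) + (m u.1 + i) ∧ ((s : ℤ) + (m u.1 + i)).toNat ∈ J u.2.1
  then hit b d m k₁ i s u.1 u.2 else 0

/-- The sums of the errors for one reference. -/
noncomputable def G1 (b : Bas k I) (d : LDat k n I) (m : (Fin (n + 1) → d.Om) → ℤ) (ns : ℕ)
    (v : Fin (n + 1) → d.Om) : ℝ :=
  ∑ i ∈ range ns, Ex (pk d v) (fun ω => Pr (qk d i ω)
    {ω' | (2 : ℝ) ^ (1 - m v) * |d.ta (ω, ω')| < ‖d.gr b (8 * ns) (v, (ω, ω'))‖})

noncomputable def G3 (d : LDat k n I) (ns k'' : ℕ) (v : Fin (n + 1) → d.Om) : ℝ :=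
  ∑ i ∈ range ns, Ex (pk d v) (fun ω => Pr (qk d i ω)
    {ω' | |d.ta (ω, ω')| < (2 : ℝ) ^ (-((i : ℤ) + k''))})

noncomputable def G4 (d : LDat k n I) (k₀ : ℕ) (v : Fin (n + 1) → d.Om) : ℝ :=
  Ex (pk d v) (fun ω => Pr (pk d v)
    {ω' | |d.th (d.T ω) - d.th (d.T ω')| < (2 : ℝ) ^ (-(k₀ : ℤ))})

noncomputable def G5 (b : Bas k I) (d : LDat k n I) (J : d.Om → Set ℕ)
    (m : (Fin (n + 1) → d.Om) → ℤ) (ns k₀ k₁ s : ℕ) (v : Fin (n + 1) → d.Om) : ℝ :=
  ∑ i ∈ range ns, Ex (pk d v) (fun ω => Ex (qk d i ω)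
    (fun ω' => Fh b d J m ns k₀ k₁ i s (v, (ω, ω'))))

/-- The samples with few heavy rows. -/
def Jb (b : Bas k I) (d : LDat k n I) (J : d.Om → Set ℕ) (h : ℕ) (u : ℝ) : Set d.Om :=
  {ω | ∃ j : ℕ, j ∉ (∅ : Set ℕ) ∧ (j + 2) * h ≤ (d.toR b).X ∧
    (Set.ncard {r | r ∈ J ω ∧ j * h ≤ r ∧ r < (j + 1) * h} : ℝ) < u * h}

/-- **One cell**: `n` spanning forms are almost constant. -/
theorem one_cell {B : ℝ} {i₀ k₀ : ℕ} (hSP : ∀ (θ : Fin n → ℝ) (q : Fin n → Fin n → ℝ),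
    (∀ j, 0 ≤ θ j ∧ θ j ≤ 1) → (∀ j j', j ≠ j' → (2 : ℝ) ^ (-(k₀ : ℤ)) ≤ |θ j - θ j'|) →
    (∀ j a, |q j a - (a.val + 1) * θ j ^ a.val| ≤ n ^ 2 / 2 ^ i₀) → Pool.SLO.Spn B q) :
    ∀ (b : Bas k I) (d : LDat k n I) (J : d.Om → Set ℕ) (m : (Fin (n + 1) → d.Om) → ℤ)
      (A ns h k₁ k'' K s : ℕ) (u e' c : ℝ), d.OK b A c → Siz b d ns h m c → 0 < u →
      0 < e' → Cr n k₀ ≤ ns → 4 * i₀ ≤ ns → k'' + K + 1 ≤ k₁ → k₁ ≤ ns → 8 * ns ≤ s →
      s < d.X - 8 * ns → ∀ v : Fin (n + 1) → d.Om, 0 < d.Qr v → d.sep k₀ v →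
      G1 b d m ns v ≤ u / 32 * ns → Pr (pk d v) (Jb b d J h u) ≤ 1 / 64 →
      G3 d ns k'' v ≤ u / 128 * ns → G4 d k₀ v ≤ 1 / (16 * (n + 1)) →
      G5 b d J m ns k₀ k₁ s v ≤ u / 128 * e' * ns →
      Pool.SLO.Gd B d.Qr (d.lb m) d.yv (d.bv b m k₀) K e' s v := by
  classical
  intro b d J m A ns h k₁ k'' K s u e' c hOK hS hu he' hCr hi₀ hk hk₁ns hs hsX v hv hsep
    g1 g2 g3 g4 g5
  have hns : 64 ≤ ns := by
    have h1 := hS.h1
    have h2 := hS.hn
    omega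
  have hP := hOK.law.nonneg
  have hPv : 0 < d.P (v 0) := (Qr_pos hOK).1 hv |>.1 0
  have hpk : IsLaw (pk d v) := isLaw_cnd hOK.law d.L hPv
  have hqk : ∀ i ω, 0 < pk d v ω → IsLaw (qk d i ω) := by
    intro i ω hω
    have h6 : 0 < d.P ω := ((cond_pos_iff hP d.L (d.L (v 0)) ω).1 hω).1
    exact isLaw_cnd hOK.law (fun v => (d.L v, d.Ti i v)) h6
  -- good bases
  set Gb : Set d.Om := {ω | ∃ i, i₀ ≤ i ∧ i < ns ∧ ∃ ω', 0 < qk d i ω ω' ∧
    (v, (ω, ω')) ∈ Wp b d m ns k₀ ∧ (2 : ℝ) ^ (-((i : ℤ) + k'')) ≤ |d.ta (ω, ω')| ∧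
    hit b d m k₁ i s v (ω, ω') ≤ e'} with hGb
  -- the errors of one base
  set S : d.Om → ℝ := fun ω => ∑ i ∈ range ns, (Pr (qk d i ω)
    {ω' | (2 : ℝ) ^ (1 - m v) * |d.ta (ω, ω')| < ‖d.gr b (8 * ns) (v, (ω, ω'))‖} +
    Pr (qk d i ω) {ω' | |d.ta (ω, ω')| < (2 : ℝ) ^ (-((i : ℤ) + k''))} +
    1 / e' * Ex (qk d i ω) (fun ω' => Fh b d J m ns k₀ k₁ i s (v, (ω, ω')))) with hSdef
  have hhit0 : ∀ i w, 0 ≤ hit b d m k₁ i s v w := fun i w =>
    Pr_nonneg (fun v' => cond_nonneg (Qr_law hOK).nonneg _ _ v') _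
  have hFh0 : ∀ i ω ω', 0 ≤ Fh b d J m ns k₀ k₁ i s (v, (ω, ω')) := by
    intro i ω ω'
    unfold Fh
    split_ifs
    · exact hhit0 _ _
    · exact le_rfl
  exact by
   have hES : Ex (pk d v) S ≤ 3 * u / 64 * ns := by
     have e1 : Ex (pk d v) S = G1 b d m ns v + G3 d ns k'' v + 1 / e' * G5 b d J m ns k₀ k₁ s v := by
       unfold G1 G3 G5
       rw [Finset.mul_sum, ← Finset.sum_add_distrib, ← Finset.sum_add_distrib]
       have e2 : Ex (pk d v) S = ∑ i ∈ range ns, Ex (pk d v) (fun ω => (Pr (qk d i ω)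
           {ω' | (2 : ℝ) ^ (1 - m v) * |d.ta (ω, ω')| < ‖d.gr b (8 * ns) (v, (ω, ω'))‖} +
           Pr (qk d i ω) {ω' | |d.ta (ω, ω')| < (2 : ℝ) ^ (-((i : ℤ) + k''))} +
           1 / e' * Ex (qk d i ω) (fun ω' => Fh b d J m ns k₀ k₁ i s (v, (ω, ω'))))) := by
         unfold Ex
         rw [Finset.sum_comm]
         exact Finset.sum_congr rfl fun ω _ => by rw [hSdef, Finset.mul_sum]; rfl
       rw [e2]
       refine Finset.sum_congr rfl fun i _ => ?_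
       rw [Ex_add, Ex_add, Ex_smul]
     have e3 : 1 / e' * G5 b d J m ns k₀ k₁ s v ≤ u / 128 * ns := by
       rw [one_div, inv_mul_le_iff₀ he']
       linarith only [g5]
     rw [e1]
     linarith only [g1, g3, e3]
   have hS0 : ∀ ω, 0 < pk d v ω → 0 ≤ S ω := by
     intro ω hω
     refine Finset.sum_nonneg fun i _ => ?_
     have h1 := (hqk i ω hω).nonneg
     have h2 := Pr_nonneg h1
       {ω' | (2 : ℝ) ^ (1 - m v) * |d.ta (ω, ω')| < ‖d.gr b (8 * ns) (v, (ω, ω'))‖}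
     have h3 := Pr_nonneg h1 {ω' | |d.ta (ω, ω')| < (2 : ℝ) ^ (-((i : ℤ) + k''))}
     have h4 : 0 ≤ Ex (qk d i ω) (fun ω' => Fh b d J m ns k₀ k₁ i s (v, (ω, ω'))) :=
       Ex_nonneg h1 fun ω' _ => hFh0 _ _ _
     positivity
   -- a base which is not good has many errors
   exact by
    have hbad : ∀ ω, 0 < pk d v ω → ω ∉ Jb b d J h u → ω ∉ Gb → u / 2 * ns ≤ S ω := by
      intro ω hω hJ hG
      set M : ℤ := (s : ℤ) + m v with hM
      have hm1 := hS.m1 v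
      have hm2 := hS.m2 v
      have hM0 : 0 ≤ M := by omega
      have hcount : u / 2 * ns ≤
          (((Finset.Ico i₀ ns).filter fun i : ℕ => (M + (i : ℤ)).toNat ∈ J ω).card : ℝ) := by
        have hX := hS.nX
        have hh := hS.hn
        have h3 := count_Ico (J ω) (X := d.X) (h := h) (A := (M + i₀).toNat)
          (B := (M + ns).toNat) hS.h1 (by omega) hu.le (fun j hj => by
            by_contra hcon
            exact hJ ⟨j, fun hh => hh, hj, not_le.1 hcon⟩)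
        have h4 : ((Finset.Ico (M + i₀).toNat (M + ns).toNat).filter fun r => r ∈ J ω).card =
            ((Finset.Ico i₀ ns).filter fun i : ℕ => (M + (i : ℤ)).toNat ∈ J ω).card := by
          refine Finset.card_bij' (fun r _ => ((r : ℤ) - M).toNat) (fun i _ => (M + i).toNat)
            ?_ ?_ ?_ ?_
          · intro r hr
            rw [Finset.mem_filter, Finset.mem_Ico] at hr ⊢
            have e1 : (M + ((((r : ℤ) - M).toNat : ℕ) : ℤ)).toNat = r := by omega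
            rw [e1]
            exact ⟨by omega, hr.2⟩
          · intro i hi
            rw [Finset.mem_filter, Finset.mem_Ico] at hi ⊢
            exact ⟨by omega, hi.2⟩
          · intro r hr
            rw [Finset.mem_filter, Finset.mem_Ico] at hr
            show (M + ((((r : ℤ) - M).toNat : ℕ) : ℤ)).toNat = r
            omega
          · intro i hi
            rw [Finset.mem_filter, Finset.mem_Ico] at hi
            show ((((M + i).toNat : ℕ) : ℤ) - M).toNat = i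
            omega
        rw [h4] at h3
        refine le_trans ?_ h3
        have e1 : (((M + i₀).toNat : ℕ) : ℤ) = M + i₀ := Int.toNat_of_nonneg (by omega)
        have e2 : (((M + ns).toNat : ℕ) : ℤ) = M + ns := Int.toNat_of_nonneg (by omega)
        have e1' : (((M + i₀).toNat : ℕ) : ℝ) = M + i₀ := by exact_mod_cast e1
        have e2' : (((M + ns).toNat : ℕ) : ℝ) = M + ns := by exact_mod_cast e2
        rw [e1', e2']
        have e3 : (64 : ℝ) * h ≤ ns := by exact_mod_cast hh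
        have e4 : (4 : ℝ) * i₀ ≤ ns := by exact_mod_cast hi₀
        have e5 : (1 : ℝ) / 2 * ns ≤ (M + ns : ℝ) - (M + i₀) - 2 * h := by linarith only [e3, e4]
        have e6 := mul_le_mul_of_nonneg_left e5 hu.le
        linarith only [e6]
      refine hcount.trans ?_
      rw [Finset.card_filter]
      push_cast
      have hsub : Finset.Ico i₀ ns ⊆ range ns := by
        intro i hi
        rw [Finset.mem_Ico] at hi
        exact Finset.mem_range.2 hi.2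
      have h1 : ∀ i ∈ Finset.Ico i₀ ns, (if (M + i).toNat ∈ J ω then (1 : ℝ) else 0) ≤
          Pr (qk d i ω)
          {ω' | (2 : ℝ) ^ (1 - m v) * |d.ta (ω, ω')| < ‖d.gr b (8 * ns) (v, (ω, ω'))‖} +
          Pr (qk d i ω) {ω' | |d.ta (ω, ω')| < (2 : ℝ) ^ (-((i : ℤ) + k''))} +
          1 / e' * Ex (qk d i ω) (fun ω' => Fh b d J m ns k₀ k₁ i s (v, (ω, ω'))) := by
        intro i hi
        rw [Finset.mem_Ico] at hi
        have hq := hqk i ω hω
        by_cases hJi : (M + i).toNat ∈ J ω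
        · rw [if_pos hJi]
          rw [← Ex_ind, ← Ex_ind, ← Ex_smul, ← Ex_add, ← Ex_add]
          refine le_trans (le_of_eq (Ex_const hq.sum_one 1).symm) ?_
          refine Ex_mono hq.nonneg fun ω' hω' => ?_
          by_cases c1 : ω' ∈ {ω' | (2 : ℝ) ^ (1 - m v) * |d.ta (ω, ω')| <
              ‖d.gr b (8 * ns) (v, (ω, ω'))‖}
          · rw [if_pos c1]
            have := hFh0 i ω ω'
            have h2 : 0 ≤ 1 / e' * Fh b d J m ns k₀ k₁ i s (v, (ω, ω')) := by positivity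
            split_ifs <;> linarith only [h2]
          by_cases c2 : ω' ∈ {ω' | |d.ta (ω, ω')| < (2 : ℝ) ^ (-((i : ℤ) + k''))}
          · rw [if_neg c1, if_pos c2]
            have := hFh0 i ω ω'
            have h2 : 0 ≤ 1 / e' * Fh b d J m ns k₀ k₁ i s (v, (ω, ω')) := by positivity
            linarith only [h2]
          rw [if_neg c1, if_neg c2]
          have c1' : ‖d.gr b (8 * ns) (v, (ω, ω'))‖ ≤ (2 : ℝ) ^ (1 - m v) * |d.ta (ω, ω')| :=
            not_lt.1 c1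
          have c2' : (2 : ℝ) ^ (-((i : ℤ) + k'')) ≤ |d.ta (ω, ω')| := not_lt.1 c2
          have hW : (v, (ω, ω')) ∈ Wp b d m ns k₀ := by
            refine ⟨hsep, le_trans ?_ c2', c1'⟩
            refine zpow_le_zpow_right₀ (by norm_num) ?_
            omega
          have hF : Fh b d J m ns k₀ k₁ i s (v, (ω, ω')) = hit b d m k₁ i s v (ω, ω') := by
            unfold Fh
            rw [if_pos]
            refine ⟨hW, ?_, ?_⟩
            · show 0 ≤ (s : ℤ) + (m v + i)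
              omega
            · show ((s : ℤ) + (m v + i)).toNat ∈ J ω
              rw [← add_assoc]
              exact hJi
          have hlt : e' < hit b d m k₁ i s v (ω, ω') := by
            by_contra hcon
            exact hG ⟨i, hi.1, hi.2, ω', hω', hW, c2', not_lt.1 hcon⟩
          rw [hF]
          have : 1 ≤ 1 / e' * hit b d m k₁ i s v (ω, ω') := by
            rw [one_div, inv_mul_eq_div, le_div_iff₀ he']
            linarith only [hlt]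
          linarith only [this]
        · rw [if_neg hJi]
          have h2 := Pr_nonneg hq.nonneg
            {ω' | (2 : ℝ) ^ (1 - m v) * |d.ta (ω, ω')| < ‖d.gr b (8 * ns) (v, (ω, ω'))‖}
          have h3 := Pr_nonneg hq.nonneg {ω' | |d.ta (ω, ω')| < (2 : ℝ) ^ (-((i : ℤ) + k''))}
          have h4 : 0 ≤ Ex (qk d i ω) (fun ω' => Fh b d J m ns k₀ k₁ i s (v, (ω, ω'))) :=
            Ex_nonneg hq.nonneg fun ω' _ => hFh0 _ _ _
          positivity
      refine (Finset.sum_le_sum h1).trans ?_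
      refine Finset.sum_le_sum_of_subset_of_nonneg hsub fun i _ _ => ?_
      have hq := hqk i ω hω
      have h2 := Pr_nonneg hq.nonneg
        {ω' | (2 : ℝ) ^ (1 - m v) * |d.ta (ω, ω')| < ‖d.gr b (8 * ns) (v, (ω, ω'))‖}
      have h3 := Pr_nonneg hq.nonneg {ω' | |d.ta (ω, ω')| < (2 : ℝ) ^ (-((i : ℤ) + k''))}
      have h4 : 0 ≤ Ex (qk d i ω) (fun ω' => Fh b d J m ns k₀ k₁ i s (v, (ω, ω'))) :=
        Ex_nonneg hq.nonneg fun ω' _ => hFh0 _ _ _
      positivity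
    -- most bases are good
    exact by
     have hns0 : (0 : ℝ) < ns := by exact_mod_cast (by omega : 0 < ns)
     have hGbc : Pr (pk d v) Gbᶜ ≤ 1 / 4 := by
       have h1 : Pr (pk d v) {ω | u / 4 * ns < S ω} ≤ (3 * u / 64 * ns) / (u / 4 * ns) :=
         Pr_gt hpk.nonneg S hS0 (by positivity) hES
       have h2 : (3 * u / 64 * ns) / (u / 4 * ns) = 3 / 16 := by
         field_simp
         norm_num
       rw [h2] at h1
       have h3 : Pr (pk d v) Gbᶜ ≤ Pr (pk d v) (Jb b d J h u) + Pr (pk d v) {ω | u / 4 * ns < S ω} := by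
         refine Pr_or hpk.nonneg fun ω hω hG => ?_
         by_cases hJ : ω ∈ Jb b d J h u
         · exact Or.inl hJ
         · refine Or.inr (lt_of_lt_of_le ?_ (hbad ω hω hJ hG))
           have : 0 < u * ns := by positivity
           nlinarith only [this]
       linarith only [g2, h1, h3]
     -- separated good bases
     obtain ⟨g, hg1, hg2⟩ := exists_sep hpk Gb hGbc
       (fun ω ω' => |d.th (d.T ω) - d.th (d.T ω')| < (2 : ℝ) ^ (-(k₀ : ℤ))) n g4 n le_rfl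
     have hg3 : ∀ j j', j ≠ j' → (2 : ℝ) ^ (-(k₀ : ℤ)) ≤ |d.th (d.T (g j)) - d.th (d.T (g j'))| := by
       intro j j' hj
       rcases lt_or_gt_of_ne hj with h1 | h1
       · exact not_lt.1 (hg2 j j' h1)
       · rw [abs_sub_comm]
         exact not_lt.1 (hg2 j' j h1)
     choose i hi1 hi2 w hw1 hw2 hw3 hw4 using fun j => (hg1 j).1
     have hth : ∀ ω, 0 ≤ d.th (d.T ω) ∧ d.th (d.T ω) ≤ 1 := fun ω =>
       ⟨(hOK.hth _).1, (hOK.hth _).2.le⟩
     have hta0 : ∀ j, 0 < |d.ta (g j, w j)| := fun j => lt_of_lt_of_le (by positivity) (hw3 j)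
     refine ⟨fun j => fm b d m ns v (g j, w j), ?_, ?_, ?_⟩
     · refine hSP (fun j => d.th (d.T (g j))) (fun j a => d.dt a (g j, w j) / d.ta (g j, w j))
         (fun j => hth _) hg3 ?_
       intro j a
       have hTi : d.Ti (i j) (g j) = d.Ti (i j) (w j) := by
         have h1 := ((cond_pos_iff hP (fun v => (d.L v, d.Ti (i j) v)) _ (w j)).1 (hw1 j)).2
         exact (Prod.ext_iff.1 h1).2.symm
       have h2 : |d.ta (g j, w j)| ≤ (2 : ℝ) ^ (-(i j : ℤ)) := ta_le hTi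
       have h3 := pow_der (hth (g j)).1 (hth (g j)).2 (hth (w j)).1 (hth (w j)).2 a.val
       have e1 : d.dt a (g j, w j) / d.ta (g j, w j) - (a.val + 1) * d.th (d.T (g j)) ^ a.val =
           (d.th (d.T (w j)) ^ (a.val + 1) - d.th (d.T (g j)) ^ (a.val + 1) -
             (a.val + 1) * d.th (d.T (g j)) ^ a.val * (d.th (d.T (w j)) - d.th (d.T (g j)))) /
             d.ta (g j, w j) := by
         have h0 : d.ta (g j, w j) ≠ 0 := abs_pos.1 (hta0 j)
         unfold LDat.dt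
         rw [eq_div_iff h0, sub_mul, div_mul_cancel₀ _ h0]
         rfl
       rw [e1, abs_div, div_le_iff₀ (hta0 j)]
       refine h3.trans ?_
       have e2 : (d.th (d.T (w j)) - d.th (d.T (g j))) ^ 2 =
           |d.ta (g j, w j)| * |d.ta (g j, w j)| := by
         rw [← sq, sq_abs]
         rfl
       rw [e2, ← mul_assoc]
       refine mul_le_mul_of_nonneg_right ?_ (abs_nonneg _)
       have e3 : ((a.val : ℝ) + 1) ^ 2 ≤ (n : ℝ) ^ 2 := by
         have : (a.val : ℝ) + 1 ≤ n := by exact_mod_cast a.isLt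
         exact pow_le_pow_left₀ (by positivity) this 2
       have e4 : |d.ta (g j, w j)| ≤ 1 / (2 : ℝ) ^ i₀ := by
         refine h2.trans ?_
         rw [zpow_neg, zpow_natCast, one_div]
         exact inv_anti₀ (by positivity) (pow_le_pow_right₀ (by norm_num) (hi1 j))
       calc ((a.val : ℝ) + 1) ^ 2 * |d.ta (g j, w j)| ≤ (n : ℝ) ^ 2 * (1 / (2 : ℝ) ^ i₀) :=
             mul_le_mul e3 e4 (abs_nonneg _) (by positivity)
         _ = _ := by ring
     · intro j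
       rw [pi_norm_le_iff_of_nonneg (by norm_num)]
       intro l
       show ‖(2 : ℝ) ^ m v * d.gr b (8 * ns) (v, (g j, w j)) l / d.ta (g j, w j)‖ ≤ 2
       rw [Real.norm_eq_abs, abs_div, abs_mul, abs_of_pos (by positivity : (0 : ℝ) < (2 : ℝ) ^ m v),
         div_le_iff₀ (hta0 j)]
       have h1 : |d.gr b (8 * ns) (v, (g j, w j)) l| ≤ (2 : ℝ) ^ (1 - m v) * |d.ta (g j, w j)| :=
         (norm_le_pi_norm (d.gr b (8 * ns) (v, (g j, w j))) l).trans (hw2 j).2.2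
       refine (mul_le_mul_of_nonneg_left h1 (by positivity)).trans (le_of_eq ?_)
       rw [← mul_assoc, ← zpow_add₀ (by norm_num)]
       congr 1
       rw [show m v + (1 - m v) = 1 by ring, zpow_one]
     · intro j
       exact atm_of hOK hS hCr hs (hi2 j).le hk hk₁ns hsep (hw3 j) (hw4 j)

end Pool.M5.SG
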